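import Mathlib

/-!
# Quadratic congruences
-/

set_option autoImplicit false

namespace Pool.Agent.R907.Cub

/-- Hensel's lemma for a quadratic polynomial. -/
lemma hensel_quad {p : ℕ} (hp : p.Prime) (α β γ x₀ : ℤ)
    (h0 : (p : ℤ) ∣ α * x₀ ^ 2 + β * x₀ + γ) (h1 : ¬ (p : ℤ) ∣ 2 * α * x₀ + β) :
    ∀ e : ℕ, ∃ x : ℤ, (p : ℤ) ∣ x - x₀ ∧ (p : ℤ) ^ (e + 1) ∣ α * x ^ 2 + β * x + γ := by
  have hpp : Prime (p : ℤ) := Nat.prime_iff_prime_int.1 hp
  intro e
  induction e with
  | zero => exact ⟨x₀, by simp, by simpa using h0⟩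
  | succ e ih =>
    obtain ⟨x, ⟨s, hs⟩, ⟨w, hw⟩⟩ := ih
    have h2 : ¬ (p : ℤ) ∣ 2 * α * x + β := by
      intro h
      apply h1
      have h3 : 2 * α * x₀ + β = (2 * α * x + β) - p * (2 * α * s) := by
        have : x = x₀ + p * s := by linarith
        rw [this]; ring
      rw [h3]
      exact dvd_sub h (Dvd.intro _ rfl)
    obtain ⟨a, b, hab⟩ : IsCoprime (p : ℤ) (2 * α * x + β) :=
      (Prime.coprime_iff_not_dvd hpp).2 h2
    -- the new approximation
    refine ⟨x - p ^ (e + 1) * (b * w), ⟨s - p ^ e * (b * w), ?_⟩,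
      ⟨a * w + α * p ^ e * (b * w) ^ 2, ?_⟩⟩
    · rw [mul_sub, ← hs]
      ring
    · have h3 : α * (x - p ^ (e + 1) * (b * w)) ^ 2 + β * (x - p ^ (e + 1) * (b * w)) + γ =
          (α * x ^ 2 + β * x + γ) - p ^ (e + 1) * w * (b * (2 * α * x + β)) +
            p ^ (e + 1) * p ^ (e + 1) * (α * (b * w) ^ 2) := by ring
      have h4 : b * (2 * α * x + β) = 1 - a * p := by linarith
      rw [h3, h4, hw]
      ring

/-- A root of `3 x ^ 2 + 3 x + 1`. -/
lemma exists_root {p : ℕ} (hp : p.Prime) (h : p % 3 = 1) :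
    ∃ x : ℤ, (p : ℤ) ∣ 3 * x ^ 2 + 3 * x + 1 := by
  have : Fact p.Prime := ⟨hp⟩
  have h1 : 3 ∣ Fintype.card (ZMod p)ˣ := by
    rw [ZMod.card_units p]
    have := hp.two_le
    omega
  have : Fact (Nat.Prime 3) := ⟨Nat.prime_three⟩
  obtain ⟨u, hu⟩ := exists_prime_orderOf_dvd_card 3 h1
  have hu3 : u ^ 3 = 1 := hu ▸ pow_orderOf_eq_one u
  have hu1 : u ≠ 1 := by
    rintro rfl
    rw [orderOf_one] at hu
    norm_num at hu
  set w : ZMod p := (u : ZMod p) with hw
  have hw1 : w - 1 ≠ 0 := by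
    intro h0
    apply hu1
    ext
    rw [Units.val_one, ← hw]
    linear_combination h0
  have hw3 : w ^ 3 = 1 := by
    rw [hw, ← Units.val_pow_eq_pow_val, hu3, Units.val_one]
  have hw2 : w ^ 2 + w + 1 = 0 := by
    have h2 : (w - 1) * (w ^ 2 + w + 1) = 0 := by linear_combination hw3
    exact (mul_eq_zero.1 h2).resolve_left hw1
  refine ⟨((w - 1)⁻¹ : ZMod p).val, ?_⟩
  rw [← ZMod.intCast_zmod_eq_zero_iff_dvd]
  push_cast
  rw [ZMod.natCast_zmod_val]
  field_simp
  linear_combination hw2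

/-- A point of a conic. -/
lemma exists_conic {p : ℕ} (hp : p.Prime) (hp2 : p ≠ 2) (d : ℤ) (hd : ¬ (p : ℤ) ∣ d) :
    ∃ k z : ZMod p, k ^ 2 + 3 - 4 * d * z ^ 2 = 0 := by
  have : Fact p.Prime := ⟨hp⟩
  open Polynomial in
  have h1 : (X ^ 2 + C 3 : (ZMod p)[X]).degree = 2 := by
    compute_degree!
  have h20 : (2 : ZMod p) ≠ 0 := by
    intro h4
    have h5 : ((2 : ℕ) : ZMod p) = 0 := by exact_mod_cast h4
    rw [ZMod.natCast_eq_zero_iff] at h5
    exact hp2 ((Nat.prime_dvd_prime_iff_eq hp Nat.prime_two).1 h5)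
  have hd0 : (d : ZMod p) ≠ 0 := by
    rwa [Ne, ZMod.intCast_zmod_eq_zero_iff_dvd]
  have h40 : (-(4 * d) : ZMod p) ≠ 0 := by
    have h4 : (-(4 * d) : ZMod p) = -(2 * 2 * d) := by ring
    rw [h4]
    exact neg_ne_zero.2 (mul_ne_zero (mul_ne_zero h20 h20) hd0)
  open Polynomial in
  have h2 : (C (-(4 * d) : ZMod p) * X ^ 2).degree = 2 := by
    rw [degree_C_mul h40, degree_X_pow]
    rfl
  obtain ⟨k, z, hkz⟩ := FiniteField.exists_root_sum_quadratic h1 h2 (by
    rw [ZMod.card]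
    exact hp.eq_two_or_odd.resolve_left hp2)
  refine ⟨k, z, ?_⟩
  simp only [Polynomial.eval_add, Polynomial.eval_pow, Polynomial.eval_X, Polynomial.eval_C,
    Polynomial.eval_mul] at hkz
  linear_combination hkz

/-- The local solutions. -/
lemma local_sol {p : ℕ} (hp : p.Prime) (a c : ℤ)
    (h2 : p = 2 → ¬ 2 ∣ a ^ 2 - 3 * c)
    (h3 : p = 3 → ¬ 3 ∣ a ^ 2 - 3 * c ∨ (a ^ 2 - 3 * c) % 9 = 3)
    (h5 : p ≠ 2 → p % 3 = 2 → ¬ (p : ℤ) ∣ a ^ 2 - 3 * c) (e : ℕ) :
    ∃ x z : ℤ, (p : ℤ) ^ (e + 1) ∣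
      3 * x ^ 2 + 2 * a * x * z + c * z ^ 2 + 3 * x + a * z + 1 := by
  have hpp : Prime (p : ℤ) := Nat.prime_iff_prime_int.1 hp
  -- a solution modulo `p` which is smooth in the first variable
  have key1 : ∀ x z : ℤ, (p : ℤ) ∣ 3 * x ^ 2 + 2 * a * x * z + c * z ^ 2 + 3 * x + a * z + 1 →
      ¬ (p : ℤ) ∣ 6 * x + 2 * a * z + 3 → ∃ x z : ℤ, (p : ℤ) ^ (e + 1) ∣
        3 * x ^ 2 + 2 * a * x * z + c * z ^ 2 + 3 * x + a * z + 1 := by
    intro x z hx hn
    obtain ⟨x', -, hx'⟩ := hensel_quad hp 3 (2 * a * z + 3) (c * z ^ 2 + a * z + 1) x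
      (by convert hx using 1; ring) (by
        intro h
        apply hn
        convert h using 1
        ring) e
    refine ⟨x', z, ?_⟩
    convert hx' using 1
    ring
  have key2 : ∀ x z : ℤ, (p : ℤ) ∣ 3 * x ^ 2 + 2 * a * x * z + c * z ^ 2 + 3 * x + a * z + 1 →
      ¬ (p : ℤ) ∣ 2 * a * x + 2 * c * z + a → ∃ x z : ℤ, (p : ℤ) ^ (e + 1) ∣
        3 * x ^ 2 + 2 * a * x * z + c * z ^ 2 + 3 * x + a * z + 1 := by
    intro x z hx hn
    obtain ⟨z', -, hz'⟩ := hensel_quad hp c (2 * a * x + a) (3 * x ^ 2 + 3 * x + 1) z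
      (by convert hx using 1; ring) (by
        intro h
        apply hn
        convert h using 1
        ring) e
    refine ⟨x, z', ?_⟩
    convert hz' using 1
    ring
  rcases eq_or_ne p 2 with rfl | hp2
  · -- `p = 2`
    have h := h2 rfl
    refine key1 0 1 ?_ ?_
    · have h4 : a ^ 2 - 3 * c = (a * (a - 1)) + a - 3 * c := by ring
      obtain ⟨t, ht⟩ := Int.even_mul_pred_self a
      rw [h4, ht] at h
      push_cast
      omega
    · push_cast
      omega
  rcases eq_or_ne p 3 with rfl | hp3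
  · rcases h3 rfl with h | h
    · -- `3` does not divide `a`
      have ha : ¬ (3 : ℤ) ∣ a := by
        intro h'
        apply h
        exact dvd_sub (h'.trans (dvd_pow_self a two_ne_zero)) (Dvd.intro _ rfl)
      rcases (by omega : a % 3 = 1 ∨ a % 3 = 2) with h' | h'
      · obtain ⟨k, hk⟩ : ∃ k, a = 3 * k + 1 := ⟨a / 3, by omega⟩
        refine key1 (c + a + 1) 1 ⟨(c + a + 1) ^ 2 + 2 * k * (c + a + 1) + 2 * (c + a + 1), ?_⟩ ?_
        · rw [hk]
          push_cast
          ring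
        · push_cast
          omega
      · obtain ⟨k, hk⟩ : ∃ k, a = 3 * k + 2 := ⟨a / 3, by omega⟩
        refine key1 (-(c + a + 1)) 1
          ⟨(c + a + 1) ^ 2 - 2 * k * (c + a + 1) - 2 * (c + a + 1), ?_⟩ ?_
        · rw [hk]
          push_cast
          ring
        · push_cast
          omega
    · have ha : (3 : ℤ) ∣ a := by
        have h' : (3 : ℤ) ∣ a ^ 2 := by omega
        exact Int.prime_three.dvd_of_dvd_pow h'
      obtain ⟨k, hk⟩ := ha
      have h4 : a ^ 2 - 3 * c = 9 * k ^ 2 - 3 * c := by rw [hk]; ring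
      rw [h4] at h
      refine key2 0 1 ?_ ?_
      · push_cast
        omega
      · push_cast
        omega
  have h30 : p % 3 ≠ 0 := by
    intro h0
    exact hp3 ((Nat.prime_dvd_prime_iff_eq Nat.prime_three hp).1
      (Nat.dvd_of_mod_eq_zero h0)).symm
  have hp3' : ¬ (p : ℤ) ∣ 3 := by
    intro h
    have h' : p ∣ 3 := by exact_mod_cast h
    exact hp3 ((Nat.prime_dvd_prime_iff_eq hp Nat.prime_three).1 h')
  rcases (by omega : p % 3 = 1 ∨ p % 3 = 2) with h | h
  · obtain ⟨x, hx⟩ := exists_root hp h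
    refine key1 x 0 (by convert hx using 1; ring) fun hn => hp3' ?_
    have h4 : (3 : ℤ) = 12 * (3 * x ^ 2 + 3 * x + 1) -
        (6 * x + 2 * a * 0 + 3) * (6 * x + 3) := by ring
    rw [h4]
    exact dvd_sub (hx.mul_left _) (hn.mul_right _)
  · have hd := h5 hp2 h
    have : Fact p.Prime := ⟨hp⟩
    obtain ⟨k, z, hkz⟩ := exists_conic hp hp2 _ hd
    have h20 : (2 : ZMod p) ≠ 0 := by
      intro h4
      have h5 : ((2 : ℕ) : ZMod p) = 0 := by exact_mod_cast h4
      rw [ZMod.natCast_eq_zero_iff] at h5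
      exact hp2 ((Nat.prime_dvd_prime_iff_eq hp Nat.prime_two).1 h5)
    have h30' : (3 : ZMod p) ≠ 0 := by
      intro h4
      apply hp3'
      rw [← ZMod.intCast_zmod_eq_zero_iff_dvd]
      exact_mod_cast h4
    set x : ZMod p := ((k - 3) / 2 - a * z) / 3 with hx
    have hx6 : 6 * x + 2 * a * z + 3 = k := by
      rw [hx]
      field_simp
      ring
    have hG : (p : ℤ) ∣ 3 * (x.val : ℤ) ^ 2 + 2 * a * x.val * z.val + c * (z.val : ℤ) ^ 2 +
        3 * x.val + a * z.val + 1 := by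
      rw [← ZMod.intCast_zmod_eq_zero_iff_dvd]
      push_cast
      rw [ZMod.natCast_zmod_val, ZMod.natCast_zmod_val]
      have h4 : (2 * 2 * 3 : ZMod p) * (3 * x ^ 2 + 2 * a * x * z + c * z ^ 2 + 3 * x + a * z + 1)
          = 0 := by
        rw [← hx6] at hkz
        push_cast at hkz
        linear_combination hkz
      exact (mul_eq_zero.1 h4).resolve_left (mul_ne_zero (mul_ne_zero h20 h20) h30')
    by_cases hn : (p : ℤ) ∣ 6 * (x.val : ℤ) + 2 * a * z.val + 3
    · refine key2 _ _ hG fun hn' => ?_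
      have h4 : (p : ℤ) ∣ 2 * (a ^ 2 - 3 * c) * z.val := by
        have h6 : 2 * (a ^ 2 - 3 * c) * (z.val : ℤ) =
            a * (6 * (x.val : ℤ) + 2 * a * z.val + 3) -
              3 * (2 * a * (x.val : ℤ) + 2 * c * z.val + a) := by ring
        rw [h6]
        exact dvd_sub (hn.mul_left _) (hn'.mul_left _)
      have h7 : (p : ℤ) ∣ (z.val : ℤ) := by
        rcases hpp.dvd_or_dvd h4 with h8 | h8
        · rcases hpp.dvd_or_dvd h8 with h9 | h9
          · exfalso
            have h' : p ∣ 2 := by exact_mod_cast h9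
            exact hp2 ((Nat.prime_dvd_prime_iff_eq hp Nat.prime_two).1 h')
          · exact absurd h9 hd
        · exact h8
      apply hp3'
      have h10 : (3 : ℤ) = 12 * (3 * (x.val : ℤ) ^ 2 + 2 * a * x.val * z.val +
          c * (z.val : ℤ) ^ 2 + 3 * x.val + a * z.val + 1) -
          (6 * (x.val : ℤ) + 2 * a * z.val + 3) * (6 * (x.val : ℤ) + 2 * a * z.val + 3) +
            z.val * (4 * (a ^ 2 - 3 * c) * z.val) := by ring
      rw [h10]
      exact dvd_add (dvd_sub (hG.mul_left _) (hn.mul_left _)) (h7.mul_right _)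
    · exact key1 _ _ hG hn

lemma not_isSquare_two : ¬ IsSquare ((2 : ℕ) : ZMod 3) := by decide

lemma isSquare_one_three : IsSquare ((1 : ℕ) : ZMod 3) := by decide

/-- The prime factors of the values of `m ^ 2 - 12 y ^ 2`. -/
lemma dvd_of_dvd_norm {p : ℕ} (hp : p.Prime) (h12 : p % 12 = 5 ∨ p % 12 = 7) {m y : ℤ}
    (h : (p : ℤ) ∣ m ^ 2 - 12 * y ^ 2) : (p : ℤ) ∣ m ∧ (p : ℤ) ∣ y := by
  have hpp : Prime (p : ℤ) := Nat.prime_iff_prime_int.1 hp
  have : Fact p.Prime := ⟨hp⟩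
  have : Fact (Nat.Prime 3) := ⟨Nat.prime_three⟩
  have hp2 : p ≠ 2 := by omega
  have hp3 : p ≠ 3 := by omega
  have h20 : (2 : ZMod p) ≠ 0 := by
    intro h4
    have h5 : ((2 : ℕ) : ZMod p) = 0 := by exact_mod_cast h4
    rw [ZMod.natCast_eq_zero_iff] at h5
    exact hp2 ((Nat.prime_dvd_prime_iff_eq hp Nat.prime_two).1 h5)
  have hns : ¬ IsSquare ((3 : ℕ) : ZMod p) := by
    rcases h12 with h | h
    · rw [ZMod.exists_sq_eq_prime_iff_of_mod_four_eq_one (by omega) (by norm_num)]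
      have h1 : ((p : ℕ) : ZMod 3) = ((2 : ℕ) : ZMod 3) :=
        (ZMod.natCast_eq_natCast_iff p 2 3).2 (by
          change p % 3 = 2 % 3
          omega)
      rw [h1]
      exact not_isSquare_two
    · rw [ZMod.exists_sq_eq_prime_iff_of_mod_four_eq_three (by omega) (by norm_num) hp3, not_not]
      have h1 : ((p : ℕ) : ZMod 3) = ((1 : ℕ) : ZMod 3) :=
        (ZMod.natCast_eq_natCast_iff p 1 3).2 (by
          change p % 3 = 1 % 3
          omega)
      rw [h1]
      exact isSquare_one_three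
  have hy : (p : ℤ) ∣ y := by
    by_contra hy
    apply hns
    have h1 : ((m : ZMod p)) ^ 2 - 12 * (y : ZMod p) ^ 2 = 0 := by
      have := (ZMod.intCast_zmod_eq_zero_iff_dvd _ p).2 h
      push_cast at this
      exact this
    have hy0 : (y : ZMod p) ≠ 0 := by rwa [Ne, ZMod.intCast_zmod_eq_zero_iff_dvd]
    refine ⟨(m : ZMod p) / (2 * y), ?_⟩
    push_cast
    field_simp
    linear_combination -h1
  refine ⟨?_, hy⟩
  have h1 : (p : ℤ) ∣ m ^ 2 := by
    have h2 : m ^ 2 = (m ^ 2 - 12 * y ^ 2) + y * (12 * y) := by ring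
    rw [h2]
    exact dvd_add h (hy.mul_right _)
  exact hpp.dvd_of_dvd_pow h1

lemma even_val {p : ℕ} (hp : p.Prime) (h12 : p % 12 = 5 ∨ p % 12 = 7) :
    ∀ (e : ℕ) (m y : ℤ), (p : ℤ) ^ (2 * e + 1) ∣ m ^ 2 - 12 * y ^ 2 →
      (p : ℤ) ^ (2 * e + 2) ∣ m ^ 2 - 12 * y ^ 2 := by
  have hp0 : (p : ℤ) ≠ 0 := by exact_mod_cast hp.ne_zero
  intro e
  induction e with
  | zero =>
    intro m y h
    obtain ⟨⟨m', rfl⟩, ⟨y', rfl⟩⟩ := dvd_of_dvd_norm hp h12 (by simpa using h)
    exact ⟨m' ^ 2 - 12 * y' ^ 2, by ring⟩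
  | succ e ih =>
    intro m y h
    obtain ⟨⟨m', rfl⟩, ⟨y', rfl⟩⟩ := dvd_of_dvd_norm hp h12
      ((dvd_pow_self (p : ℤ) (by omega)).trans h)
    have h1 : ((p : ℤ) * m') ^ 2 - 12 * (p * y') ^ 2 = p ^ 2 * (m' ^ 2 - 12 * y' ^ 2) := by ring
    rw [h1] at h ⊢
    have h2 : (p : ℤ) ^ (2 * (e + 1) + 1) = p ^ 2 * p ^ (2 * e + 1) := by ring
    have h3 : (p : ℤ) ^ (2 * (e + 1) + 2) = p ^ 2 * p ^ (2 * e + 2) := by ring
    rw [h2] at h
    rw [h3]
    exact mul_dvd_mul_left _ (ih m' y' ((mul_dvd_mul_iff_left (pow_ne_zero 2 hp0)).1 h))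

/-- A positive factor which is coprime to the complementary factor. -/
lemma factor_mod (A : ℕ) : ∀ B m y : ℤ, 0 < A → A.Coprime 6 → IsCoprime (A : ℤ) B →
    A * B = m ^ 2 - 12 * y ^ 2 → A % 12 = 1 ∨ A % 12 = 11 := by
  intro B m y hA0 hA6 hAB h
  -- the valuations
  have hval : ∀ p : ℕ, p.Prime → p ∣ A → (p % 12 = 1 ∨ p % 12 = 11) ∨ Even (A.factorization p) := by
    intro p hp hpA
    have hcop : Nat.Coprime p 6 := Nat.Coprime.coprime_dvd_left hpA hA6
    have hp2 : p % 2 ≠ 0 := fun h0 => by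
      have : 2 ∣ Nat.gcd p 6 := Nat.dvd_gcd (Nat.dvd_of_mod_eq_zero h0) (by norm_num)
      rw [hcop] at this
      norm_num at this
    have hp3 : p % 3 ≠ 0 := fun h0 => by
      have : 3 ∣ Nat.gcd p 6 := Nat.dvd_gcd (Nat.dvd_of_mod_eq_zero h0) (by norm_num)
      rw [hcop] at this
      norm_num at this
    by_cases h12 : p % 12 = 1 ∨ p % 12 = 11
    · exact Or.inl h12
    right
    have h12' : p % 12 = 5 ∨ p % 12 = 7 := by omega
    by_contra hodd
    rw [Nat.not_even_iff_odd] at hodd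
    obtain ⟨e, he⟩ := hodd
    have h1 : p ^ (2 * e + 1) ∣ A := he ▸ Nat.ordProj_dvd A p
    have h2 : (p : ℤ) ^ (2 * e + 1) ∣ m ^ 2 - 12 * y ^ 2 := by
      rw [← h]
      exact (by exact_mod_cast h1 : (p : ℤ) ^ (2 * e + 1) ∣ (A : ℤ)).mul_right _
    have h3 := even_val hp h12' e m y h2
    rw [← h] at h3
    have h4 : IsCoprime ((p : ℤ) ^ (2 * e + 2)) B := by
      apply IsCoprime.pow_left
      exact IsCoprime.of_isCoprime_of_dvd_left hAB (by exact_mod_cast hpA)
    have h5 := h4.dvd_of_dvd_mul_right h3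
    have h6 : p ^ (2 * e + 2) ∣ A := by exact_mod_cast h5
    have h7 := (hp.pow_dvd_iff_le_factorization hA0.ne').1 h6
    omega
  clear hAB h
  induction A using Nat.strong_induction_on with
  | _ A ih =>
    rcases (by omega : A = 1 ∨ 1 < A) with rfl | hA1
    · left; norm_num
    have hp := Nat.minFac_prime (show A ≠ 1 by omega)
    set p := A.minFac with hpd
    have hpA : p ∣ A := Nat.minFac_dvd A
    set k := A.factorization p with hk
    have hk0 : 0 < k := hp.factorization_pos_of_dvd hA0.ne' hpA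
    set A' := A / p ^ k with hA'
    have hAA : p ^ k * A' = A := Nat.ordProj_mul_ordCompl_eq_self A p
    have hA'0 : 0 < A' := Nat.ordCompl_pos p hA0.ne'
    have hlt : A' < A := by
      rw [← hAA]
      have : 1 < p ^ k := Nat.one_lt_pow hk0.ne' hp.one_lt
      nlinarith
    have hcA' : A'.Coprime 6 := Nat.Coprime.coprime_dvd_left (Dvd.intro_left _ hAA) hA6
    have hcp : (p ^ k).Coprime 6 := Nat.Coprime.coprime_dvd_left (Dvd.intro _ hAA) hA6
    have hnp : ¬ p ∣ A' := Nat.not_dvd_ordCompl hp hA0.ne'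
    have h1 := ih A' hlt hA'0 hcA' fun q hq hqA' => by
      have hqA : q ∣ A := hqA'.trans (Dvd.intro_left _ hAA)
      rcases hval q hq hqA with h | h
      · exact Or.inl h
      · right
        have hqp : q ≠ p := by
          rintro rfl
          exact hnp hqA'
        have h2 : A'.factorization q = A.factorization q := by
          rw [← hAA, Nat.factorization_mul (pow_ne_zero _ hp.ne_zero) hA'0.ne',
            Finsupp.add_apply, hp.factorization_pow, Finsupp.single_apply, if_neg hqp.symm,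
            zero_add]
        rw [h2]
        exact h
    have h2 : p ^ k % 12 = 1 ∨ p ^ k % 12 = 11 := by
      rcases hval p hp hpA with h | h
      · rcases h with h | h
        · left
          rw [Nat.pow_mod, h]
          simp
        · rcases Nat.even_or_odd k with ⟨j, hj⟩ | ⟨j, hj⟩
          · left
            rw [hj, ← two_mul, pow_mul, Nat.pow_mod, Nat.pow_mod p, h]
            simp
          · right
            rw [hj, pow_succ, pow_mul, Nat.mul_mod, Nat.pow_mod, Nat.pow_mod p 2, h]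
            simp
      · obtain ⟨j, hj⟩ := h
        left
        have hp2 : p ^ 2 % 12 = 1 := by
          have hcop : Nat.Coprime p 6 := Nat.Coprime.coprime_dvd_left hpA hA6
          have hp2 : p % 2 ≠ 0 := fun h0 => by
            have : 2 ∣ Nat.gcd p 6 := Nat.dvd_gcd (Nat.dvd_of_mod_eq_zero h0) (by norm_num)
            rw [hcop] at this
            norm_num at this
          have hp3 : p % 3 ≠ 0 := fun h0 => by
            have : 3 ∣ Nat.gcd p 6 := Nat.dvd_gcd (Nat.dvd_of_mod_eq_zero h0) (by norm_num)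
            rw [hcop] at this
            norm_num at this
          rw [Nat.pow_mod]
          rcases (by omega : p % 12 = 1 ∨ p % 12 = 5 ∨ p % 12 = 7 ∨ p % 12 = 11) with
            h | h | h | h <;> rw [h]
        have hj' : k = j + j := hj
        rw [hj', ← two_mul, pow_mul, Nat.pow_mod, hp2]
        simp
    rw [← hAA, Nat.mul_mod]
    rcases h1 with h1 | h1 <;> rcases h2 with h2 | h2 <;> rw [h1, h2] <;> simp

lemma coprime_six {A : ℕ} (h : A % 6 = 1 ∨ A % 6 = 5) : A.Coprime 6 := by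
  rw [Nat.coprime_iff_gcd_eq_one, Nat.gcd_comm, Nat.gcd_rec]
  rcases h with h | h <;> rw [h] <;> norm_num

/-- The equation without solutions. -/
lemma no_solution (a b c : ℤ) (h : 8 * a ^ 2 + 18 * b ^ 2 = 6 * c ^ 2 + 6 * c + 2) : False := by
  wlog ha : 0 ≤ a generalizing a
  · exact this (-a) (by rw [neg_sq]; exact h) (by omega)
  have h1 : 16 * a ^ 2 - 1 = 3 * ((2 * c + 1) ^ 2 - 12 * b ^ 2) := by linarith
  obtain ⟨n, rfl⟩ := Int.eq_ofNat_of_zero_le ha
  rcases (by omega : n % 3 = 0 ∨ n % 3 = 1 ∨ n % 3 = 2) with h3 | h3 | h3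
  · obtain ⟨k, hk⟩ : ∃ k, n = 3 * k := ⟨n / 3, by omega⟩
    rw [hk] at h1
    push_cast at h1
    have : (3 : ℤ) * (48 * k ^ 2 - ((2 * c + 1) ^ 2 - 12 * b ^ 2)) = 1 := by linarith
    omega
  · obtain ⟨k, hk⟩ : ∃ k, n = 3 * k + 1 := ⟨n / 3, by omega⟩
    have h4 := factor_mod (12 * k + 5) (4 * k + 1) (2 * c + 1) b (by omega)
      (coprime_six (by omega)) ⟨-2 * k, 1 + 6 * k, by push_cast; ring⟩ (by
        rw [hk] at h1
        push_cast at h1 ⊢
        linarith)
    omega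
  · obtain ⟨k, hk⟩ : ∃ k, n = 3 * k + 2 := ⟨n / 3, by omega⟩
    have h4 := factor_mod (12 * k + 7) (4 * k + 3) (2 * c + 1) b (by omega)
      (coprime_six (by omega)) ⟨2 * k + 1, -6 * k - 2, by push_cast; ring⟩ (by
        rw [hk] at h1
        push_cast at h1 ⊢
        linarith)
    omega

end Pool.Agent.R907.Cub
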