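import Pool.Agent.R907.Cub.LGDefs

/-!
# Cubic fourfolds whose Fano variety of lines is a Hilbert scheme: definitions
-/

set_option autoImplicit false

namespace Pool.Agent.R907.Cub

open Pool.Agent.Y95.Q Matrix

/-- Strong approximation for affine quadrics (Kneser 1956, Watson 1960): let `A` be the matrix of a
nondegenerate indefinite integral quadratic form in `n ≥ 4` variables and let `t ≠ 0`. If the
congruences `x A x = t mod m` have solutions `x ≡ x₀ mod N` for all `m`, then the equation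
`x A x = t` has an integral solution `x ≡ x₀ mod N`. -/
def StrongApproximation : Prop :=
  ∀ (n : ℕ) (A : Matrix (Fin n) (Fin n) ℤ) (t N : ℤ) (x₀ : Fin n → ℤ), 4 ≤ n → Aᵀ = A →
    A.det ≠ 0 → t ≠ 0 → N ≠ 0 → (∃ x, x ⬝ᵥ A *ᵥ x < 0) → (∃ x, 0 < x ⬝ᵥ A *ᵥ x) →
      (∀ m : ℤ, m ≠ 0 → ∃ z, m ∣ (x₀ + N • z) ⬝ᵥ A *ᵥ (x₀ + N • z) - t) →
        ∃ z, (x₀ + N • z) ⬝ᵥ A *ᵥ (x₀ + N • z) = t

/-- `X` lies in `𝒞_d` for a number `d = (2 n ^ 2 + 2 n + 2) / a ^ 2`. By a theorem of Addington this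
means that the Fano variety of lines of `X` is birational to the Hilbert square of a K3
surface. -/
def HasHilb {X : CubicFourfold} (H : H4 X) : Prop :=
  ∃ v, H.IsHodge v ∧ H.Saturated v ∧ ∃ a n : ℤ, a ^ 2 * H.disc v = 2 * n ^ 2 + 2 * n + 2

end Pool.Agent.R907.Cub
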