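import Pool.Agent.R907.Cub.LG
import Pool.Agent.R907.Cub.Hensel
import Pool.Agent.R907.Cub.HilbDefs

/-!
# Cubic fourfolds whose Fano variety of lines is a Hilbert scheme
-/

set_option autoImplicit false

namespace Pool.Agent.R907.Cub

open Pool.Agent.Y95.Q Pool.Agent.Y95.Q.H4 Module Matrix

variable {X : CubicFourfold} {H : H4 X}

/-- The equation. -/
def HilbClass (H : H4 X) : Prop :=
  ∃ y, H.IsHodge y ∧ H.ip y y = (H.ip H.h y + 1) ^ 2 + 1

lemma hilbClass_of_hasHilb (hH : H.IsCohomology) (h : HasHilb H) : HilbClass H := by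
  obtain ⟨v, hv, -, a, n, han⟩ := h
  rw [disc] at han
  -- the congruence modulo three
  have h1 : ∃ ε : ℤ, ε ^ 2 = 1 ∧ (ε * a * H.ip H.h v) % 3 = (n - 1) % 3 := by
    have h2 : a ^ 2 * (3 * H.ip v v - H.ip H.h v ^ 2) =
        3 * (a ^ 2 * H.ip v v) - (a * H.ip H.h v) ^ 2 := by ring
    rw [h2] at han
    generalize a ^ 2 * H.ip v v = s at han
    have h3 : ∀ ε : ℤ, ε * a * H.ip H.h v = ε * (a * H.ip H.h v) := fun ε => by ring
    simp only [h3]
    generalize a * H.ip H.h v = u at han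
    have h4 : ∃ k, u ^ 2 = (n - 1) ^ 2 + 3 * k := ⟨s - n ^ 2 - 1, by linarith⟩
    obtain ⟨k, hk⟩ := h4
    have h5 : ∀ t : ℤ, (t % 3 = 0 ∧ t ^ 2 % 3 = 0) ∨ (t % 3 = 1 ∧ t ^ 2 % 3 = 1) ∨
        (t % 3 = 2 ∧ t ^ 2 % 3 = 1) := by
      intro t
      rcases (by omega : t % 3 = 0 ∨ t % 3 = 1 ∨ t % 3 = 2) with h | h | h <;>
        simp [pow_two, Int.mul_emod, h]
    have hu := h5 u
    have hn := h5 (n - 1)
    by_cases h6 : u % 3 = (n - 1) % 3
    · exact ⟨1, by norm_num, by rw [one_mul]; exact h6⟩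
    · refine ⟨-1, by norm_num, ?_⟩
      rw [neg_one_mul]
      omega
  obtain ⟨ε, hε, h3⟩ := h1
  obtain ⟨x, hx⟩ : ∃ x, n - 1 = 3 * x + ε * a * H.ip H.h v :=
    ⟨(n - 1 - ε * a * H.ip H.h v) / 3, by omega⟩
  refine ⟨x • H.h + (ε * a) • v, H.isHodge_add (H.isHodge_smul _ hH.h_hodge)
    (H.isHodge_smul _ hv), ?_⟩
  have h4 : H.ip H.h (x • H.h + (ε * a) • v) = n - 1 := by
    rw [ip_add_right, ip_smul_right, ip_smul_right, hH.h_self, hx]
    ring
  rw [h4]
  have h5 : 3 * H.ip (x • H.h + (ε * a) • v) (x • H.h + (ε * a) • v) =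
      ε ^ 2 * (a ^ 2 * (3 * H.ip v v - H.ip H.h v ^ 2)) + (n - 1) ^ 2 := by
    rw [hx]
    simp only [ip_add_left, ip_add_right, ip_smul_left, ip_smul_right, hH.h_self,
      hH.comm v H.h]
    ring
  rw [hε, han] at h5
  linarith

lemma hasHilb_of_hilbClass (hH : H.IsCohomology) (h : HilbClass H) : HasHilb H := by
  obtain ⟨y, hy, hyy⟩ := h
  have h1 : H.disc y = 2 * (H.ip H.h y + 1) ^ 2 + 2 * (H.ip H.h y + 1) + 2 := by
    rw [disc, hyy]
    ring
  have hpos : 0 < H.disc y := by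
    rw [h1]
    nlinarith [sq_nonneg (2 * (H.ip H.h y + 1) + 1)]
  obtain ⟨w, m, t, hm, hsat, hw⟩ := hH.exists_saturated y hpos
  have hwH : H.IsHodge w := by
    refine H.isHodge_of_smul hm.ne' ?_
    have h1 : m • w = y - t • H.h := by
      rw [hw]
      abel
    rw [h1]
    exact H.isHodge_sub hy (H.isHodge_smul _ hH.h_hodge)
  refine ⟨w, hwH, hsat, m, H.ip H.h y + 1, ?_⟩
  rw [← h1]
  conv_rhs => rw [hw]
  rw [hH.disc_comb]

lemma hasK3_of_hasHilb (hH : H.IsCohomology) (h : HasHilb H) : H.HasK3 := by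
  obtain ⟨v, hv, hsat, a, n, han⟩ := h
  have hpos : 0 < H.disc v := by
    by_contra hcon
    push Not at hcon
    have h1 : a ^ 2 * H.disc v ≤ 0 := mul_nonpos_of_nonneg_of_nonpos (by positivity) hcon
    nlinarith [sq_nonneg (2 * n + 1)]
  exact ⟨v, hv, hsat, hH.six_lt hv hpos, four_not_dvd han, nine_not_dvd han,
    fun p hp hp2 hd => prime_mod han hp hp2 hd⟩

/-- The quadratic polynomial. -/
def qy (H : H4 X) (y : Fin 23 → ℤ) : ℤ := H.ip y y - H.ip H.h y ^ 2 - 2 * H.ip H.h y - 2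

/-- The local solutions. -/
lemma local_qy (hH : H.IsCohomology) (hL : LocallyAdmissible H) {p : ℕ} (hp : p.Prime) (e : ℕ) :
    ∃ y : H.hodge, (p : ℤ) ^ (e + 1) ∣ qy H y := by
  obtain ⟨v, hv, hadm⟩ := hL p hp
  obtain ⟨h2, h3, h5⟩ := hadm
  obtain ⟨c, hc⟩ : ∃ c, H.ip H.h v ^ 2 - H.ip v v = 2 * c := by
    have h1 := hH.char v
    rw [hH.comm v H.h] at h1
    obtain ⟨s, hs⟩ := h1
    obtain ⟨t, ht⟩ := Int.even_mul_pred_self (H.ip H.h v)
    refine ⟨t - s, ?_⟩
    have h4 : H.ip H.h v ^ 2 = H.ip H.h v * (H.ip H.h v - 1) + H.ip H.h v := by ring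
    rw [h4, ht]
    linarith
  set a := H.ip H.h v with ha
  have hd : H.disc v = 2 * (a ^ 2 - 3 * c) := by
    rw [disc, ← ha]
    linarith
  rw [hd] at h2 h3 h5
  obtain ⟨x, z, hxz⟩ := local_sol hp a c (fun h => by
      have := h2 h
      omega) (fun h => by
      have := h3 h
      omega) (fun hp2 hp3 h => h5 hp2 hp3 (h.mul_left _)) e
  refine ⟨⟨x • H.h + z • v, H.isHodge_add (H.isHodge_smul _ hH.h_hodge)
    (H.isHodge_smul _ hv)⟩, ?_⟩
  have h6 : qy H (x • H.h + z • v) =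
      (3 * x ^ 2 + 2 * a * x * z + c * z ^ 2 + 3 * x + a * z + 1) * (-2) := by
    simp only [qy, ip_add_left, ip_add_right, ip_smul_left, ip_smul_right, hH.h_self,
      hH.comm v H.h, ← ha]
    linear_combination -z ^ 2 * hc
  change (p : ℤ) ^ (e + 1) ∣ qy H (x • H.h + z • v)
  rw [h6]
  exact hxz.mul_right _

/-- The congruences are solvable. -/
lemma all_qy (hH : H.IsCohomology) (hL : LocallyAdmissible H) (m : ℤ) (hm : m ≠ 0) :
    ∃ y : H.hodge, m ∣ qy H y := by
  classical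
  choose Y hY using fun (p : ℕ) (hp : p.Prime) (e : ℕ) => local_qy hH hL hp e
  set M := m.natAbs with hM
  have hM0 : M ≠ 0 := Int.natAbs_ne_zero.2 hm
  let V : ℕ → H.hodge := fun p => if hp : p.Prime then Y p hp (M.factorization p) else 0
  have hprime : ∀ p ∈ M.primeFactors, p.Prime := fun p hp => Nat.prime_of_mem_primeFactors hp
  have hcop : ∀ i ∈ M.primeFactors, ∀ j ∈ M.primeFactors, i ≠ j →
      IsCoprime ((i : ℤ) ^ (M.factorization i + 1)) ((j : ℤ) ^ (M.factorization j + 1)) := by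
    intro i hi j hj hij
    exact IsCoprime.pow (Nat.isCoprime_iff_coprime.2
      ((Nat.coprime_primes (hprime i hi) (hprime j hj)).2 hij))
  obtain ⟨y, hy⟩ := crt M.primeFactors (fun p => (p : ℤ) ^ (M.factorization p + 1)) V hcop
  refine ⟨y, ?_⟩
  have h1 : ∀ p ∈ M.primeFactors, ((p : ℤ)) ^ (M.factorization p) ∣ qy H y := by
    intro p hp
    obtain ⟨z, hz⟩ := hy p hp
    have h2 : qy H y = qy H (V p) + (p : ℤ) ^ (M.factorization p + 1) *
        (2 * H.ip (V p) z + (p : ℤ) ^ (M.factorization p + 1) * H.ip z z -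
          2 * H.ip H.h (V p) * H.ip H.h z -
            (p : ℤ) ^ (M.factorization p + 1) * H.ip H.h z ^ 2 - 2 * H.ip H.h z) := by
      have h3 : (y : Fin 23 → ℤ) = (V p : Fin 23 → ℤ) +
          ((p : ℤ) ^ (M.factorization p + 1)) • (z : Fin 23 → ℤ) := by
        rw [hz]
        rfl
      rw [h3]
      simp only [qy, ip_add_left, ip_add_right, ip_smul_left, ip_smul_right,
        hH.comm (z : Fin 23 → ℤ) (V p : Fin 23 → ℤ)]
      ring
    have h4 : (p : ℤ) ^ (M.factorization p + 1) ∣ qy H (V p) := by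
      simp only [V, dif_pos (hprime p hp)]
      exact hY p (hprime p hp) _
    rw [h2]
    exact (pow_dvd_pow _ (Nat.le_succ _)).trans (dvd_add h4 (Dvd.intro _ rfl))
  have h2 : (M : ℤ) = ∏ p ∈ M.primeFactors, (p : ℤ) ^ (M.factorization p) := by
    conv_lhs => rw [← Nat.prod_factorization_pow_eq_self hM0]
    rw [Finsupp.prod, Nat.support_factorization]
    push_cast
    rfl
  rw [← Int.natAbs_dvd, ← hM, h2]
  refine Finset.prod_dvd_of_coprime ?_ h1
  intro i hi j hj hij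
  exact IsCoprime.pow (Nat.isCoprime_iff_coprime.2
    ((Nat.coprime_primes (hprime i hi) (hprime j hj)).2 hij))

section Coord

/-- The matrix of the form `v.v - (h.v) ^ 2`. -/
noncomputable def qA (H : H4 X) {r : ℕ} (b : Basis (Fin r) ℤ H.hodge) : Matrix (Fin r) (Fin r) ℤ :=
  Matrix.of fun i j => H.ip (b i) (b j) - H.ip H.h (b i) * H.ip H.h (b j)

variable {r : ℕ} (b : Basis (Fin r) ℤ H.hodge)

lemma coe_sum (v : H.hodge) : (v : Fin 23 → ℤ) = ∑ i, b.repr v i • (b i : Fin 23 → ℤ) := by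
  conv_lhs => rw [← b.sum_repr v]
  rw [Submodule.coe_sum]
  rfl

lemma qA_mulVec (v : H.hodge) (i : Fin r) :
    (qA H b *ᵥ (b.repr v : Fin r → ℤ)) i = H.ip (b i) v - H.ip H.h (b i) * H.ip H.h v := by
  rw [Matrix.mulVec, dotProduct]
  conv_rhs => rw [coe_sum b v]
  rw [ip_sum_right, ip_sum_right, Finset.mul_sum, ← Finset.sum_sub_distrib]
  refine Finset.sum_congr rfl fun j _ => ?_
  rw [ip_smul_right, ip_smul_right, qA, Matrix.of_apply]
  ring

lemma qA_dot (v w : H.hodge) :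
    (b.repr v : Fin r → ℤ) ⬝ᵥ (qA H b *ᵥ (b.repr w : Fin r → ℤ)) =
      H.ip v w - H.ip H.h v * H.ip H.h w := by
  rw [dotProduct]
  simp only [qA_mulVec b]
  conv_rhs => rw [coe_sum b v]
  rw [ip_sum_left, ip_sum_right, Finset.sum_mul, ← Finset.sum_sub_distrib]
  refine Finset.sum_congr rfl fun j _ => ?_
  rw [ip_smul_left, ip_smul_right]
  ring

lemma exists_repr (c : Fin r → ℤ) : ∃ v : H.hodge, (b.repr v : Fin r → ℤ) = c :=
  ⟨b.equivFun.symm c, by
    have := b.equivFun.apply_symm_apply c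
    rwa [Basis.equivFun_apply] at this⟩

lemma qA_det (hH : H.IsCohomology) : (qA H b).det ≠ 0 := by
  intro h0
  obtain ⟨c, hc0, hc⟩ := Matrix.exists_mulVec_eq_zero_iff.2 h0
  obtain ⟨x, hx⟩ := exists_repr b c
  have h1 : ∀ i, H.ip (b i) x - H.ip H.h (b i) * H.ip H.h x = 0 := by
    intro i
    rw [← qA_mulVec b, hx, hc]
    rfl
  have h2 : ∀ w : H.hodge, H.ip w x = H.ip H.h w * H.ip H.h x := by
    intro w
    rw [coe_sum b w, ip_sum_left, ip_sum_right, Finset.sum_mul]
    refine Finset.sum_congr rfl fun j _ => ?_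
    rw [ip_smul_left, ip_smul_right]
    linear_combination (b.repr w j) * h1 j
  have h3 := h2 ⟨H.h, hH.h_hodge⟩
  have h4 : H.ip H.h x = 0 := by
    change H.ip H.h x = H.ip H.h H.h * H.ip H.h x at h3
    rw [hH.h_self] at h3
    linarith
  have h5 : H.ip x x = 0 := by rw [h2 x, h4, mul_zero]
  by_cases hx0 : (x : Fin 23 → ℤ) = 0
  · apply hc0
    rw [← hx]
    have : x = 0 := Subtype.ext hx0
    rw [this, map_zero]
    rfl
  · have := hH.pos x x.2 hx0
    omega

end Coord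

/-- **Hilbert squares.** -/
theorem hilbClass_of_local (hH : H.IsCohomology) (hS : StrongApproximation) (hρ : 4 ≤ H.rank)
    (hL : LocallyAdmissible H) : HilbClass H := by
  classical
  let b := Module.finBasis ℤ H.hodge
  let h' : H.hodge := ⟨H.h, hH.h_hodge⟩
  have key : ∀ y : H.hodge, H.ip ((h' + (2 : ℤ) • y : H.hodge) : Fin 23 → ℤ)
      ((h' + (2 : ℤ) • y : H.hodge) : Fin 23 → ℤ) -
        H.ip H.h ((h' + (2 : ℤ) • y : H.hodge) : Fin 23 → ℤ) *
          H.ip H.h ((h' + (2 : ℤ) • y : H.hodge) : Fin 23 → ℤ) = 2 + 4 * qy H y := by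
    intro y
    have h1 : ((h' + (2 : ℤ) • y : H.hodge) : Fin 23 → ℤ) =
        H.h + (2 : ℤ) • (y : Fin 23 → ℤ) := rfl
    rw [h1]
    simp only [qy, ip_add_left, ip_add_right, ip_smul_left, ip_smul_right, hH.h_self,
      hH.comm (y : Fin 23 → ℤ) H.h]
    ring
  have hrepr : ∀ y : H.hodge, (b.repr h' : Fin _ → ℤ) + (2 : ℤ) • (b.repr y : Fin _ → ℤ) =
      (b.repr (h' + (2 : ℤ) • y) : Fin _ → ℤ) := by
    intro y
    rw [map_add, map_smul]
    rfl
  obtain ⟨v, u, hv, hu, hind⟩ := exists_three hH (by omega : 3 ≤ H.rank)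
  obtain ⟨z, hz⟩ := hS _ (qA H b) 2 2 (b.repr h' : Fin _ → ℤ) (by rwa [rank_eq] at hρ) (by
      ext i j
      rw [Matrix.transpose_apply, qA, Matrix.of_apply, Matrix.of_apply, hH.comm (b j) (b i)]
      ring) (qA_det b hH) two_ne_zero two_ne_zero
    ⟨(b.repr h' : Fin _ → ℤ), by
      rw [qA_dot]
      change H.ip H.h H.h - H.ip H.h H.h * H.ip H.h H.h < 0
      rw [hH.h_self]
      norm_num⟩
    ⟨(b.repr ⟨(3 : ℤ) • v - H.ip H.h v • H.h, H.isHodge_sub (H.isHodge_smul _ hv)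
        (H.isHodge_smul _ hH.h_hodge)⟩ : Fin _ → ℤ), by
      rw [qA_dot]
      have h1 : H.ip H.h ((3 : ℤ) • v - H.ip H.h v • H.h) = 0 := by
        rw [ip_sub_right, ip_smul_right, ip_smul_right, hH.h_self]
        ring
      have h2 : 0 < H.ip ((3 : ℤ) • v - H.ip H.h v • H.h) ((3 : ℤ) • v - H.ip H.h v • H.h) := by
        refine hH.pos _ (H.isHodge_sub (H.isHodge_smul _ hv)
          (H.isHodge_smul _ hH.h_hodge)) fun h0 => ?_
        have := hind (-(H.ip H.h v)) 3 0 (by rw [← h0]; module)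
        omega
      change 0 < H.ip ((3 : ℤ) • v - H.ip H.h v • H.h) ((3 : ℤ) • v - H.ip H.h v • H.h) -
        H.ip H.h ((3 : ℤ) • v - H.ip H.h v • H.h) * H.ip H.h ((3 : ℤ) • v - H.ip H.h v • H.h)
      rw [h1]
      simpa using h2⟩
    (fun m hm => by
      obtain ⟨y, hy⟩ := all_qy hH hL m hm
      refine ⟨(b.repr y : Fin _ → ℤ), ?_⟩
      rw [hrepr, qA_dot, key]
      have h1 : 2 + 4 * qy H y - 2 = qy H y * 4 := by ring
      rw [h1]
      exact hy.mul_right _)
  obtain ⟨y, hy⟩ := exists_repr b z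
  rw [← hy, hrepr, qA_dot, key] at hz
  refine ⟨y, y.2, ?_⟩
  have h1 : qy H y = 0 := by linarith
  rw [qy] at h1
  linarith

/-- **Four equivalent conditions in rank at least four.** -/
theorem tfae_hilb (hH : H.IsCohomology) (hS : StrongApproximation) (hρ : 4 ≤ H.rank) :
    List.TFAE [H.HasK3, LocallyAdmissible H, HasHilb H, HilbClass H] := by
  tfae_have 1 → 2 := by
    rintro ⟨v, hv, -, hadm⟩ p hp
    exact ⟨v, hv, admissibleAt_of_admissible (disc_even hH v) hadm hp⟩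
  tfae_have 2 → 4 := hilbClass_of_local hH hS hρ
  tfae_have 4 → 3 := hasHilb_of_hilbClass hH
  tfae_have 3 → 1 := hasK3_of_hasHilb hH
  tfae_finish

/-- **The examples in rank three.** -/
theorem example_rank_three (hH : H.IsCohomology) (hW : WeberTheorem) {s t : ℤ}
    {v w : Fin 23 → ℤ} (hs : Odd s) (ht : ¬ 3 ∣ t) (hst : IsCoprime s t) (hv : H.IsHodge v)
    (hw : H.IsHodge w) (hhv : H.ip H.h v = 0) (hhw : H.ip H.h w = 0) (hvw : H.ip v w = 0)
    (hvv : H.ip v v = 8 * t ^ 2) (hww : H.ip w w = 18 * s ^ 2)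
    (hall : ∀ x, H.IsHodge x → ∃ a b c : ℤ, x = a • H.h + b • v + c • w) :
    InfinitelyManyK3 H ∧ ¬ HasHilb H := by
  have hvh : H.ip v H.h = 0 := by rw [hH.comm]; exact hhv
  have hwh : H.ip w H.h = 0 := by rw [hH.comm]; exact hhw
  have hwv : H.ip w v = 0 := by rw [hH.comm]; exact hvw
  have hs0 : s ≠ 0 := by
    rintro rfl
    simp at hs
  have ht0 : t ≠ 0 := by
    rintro rfl
    simp at ht
  have hdv : H.disc v = 24 * t ^ 2 := by rw [disc, hvv, hhv]; ring
  have hdw : H.disc w = 54 * s ^ 2 := by rw [disc, hww, hhw]; ring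
  constructor
  · have hrank : 3 ≤ H.rank := by
      rw [rank_eq]
      let f : Fin 3 → H.hodge := ![⟨H.h, hH.h_hodge⟩, ⟨v, hv⟩, ⟨w, hw⟩]
      have hf : LinearIndependent ℤ f := by
        rw [Fintype.linearIndependent_iff]
        intro g hg
        rw [Fin.sum_univ_three] at hg
        have h0 : g 0 • H.h + g 1 • v + g 2 • w = 0 := congrArg Subtype.val hg
        have h1 := congrArg (H.ip H.h) h0
        have h2 := congrArg (H.ip v) h0
        have h3 := congrArg (H.ip w) h0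
        simp only [ip_add_right, ip_smul_right, hH.h_self, hhv, hhw, hvh, hwh, hvv, hww, hvw,
          hwv, ip_zero_right, mul_zero, add_zero, zero_add] at h1 h2 h3
        have e1 : g 0 = 0 := by linarith
        have e2 : g 1 = 0 := (mul_eq_zero.1 h2).resolve_right (by positivity)
        have e3 : g 2 = 0 := (mul_eq_zero.1 h3).resolve_right (by positivity)
        intro i
        fin_cases i
        · exact e1
        · exact e2
        · exact e3
      simpa using hf.fintype_card_le_finrank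
    refine infinitely_many hH hW hrank fun p hp => ?_
    have hpp : Prime (p : ℤ) := Nat.prime_iff_prime_int.1 hp
    rcases eq_or_ne p 2 with rfl | hp2
    · refine ⟨w, hw, fun _ h4 => ?_, fun h3 => absurd h3 (by norm_num),
        fun h2 => absurd rfl h2⟩
      rw [hdw] at h4
      have h5 : Odd (s ^ 2) := hs.pow
      obtain ⟨k, hk⟩ := h5
      omega
    rcases eq_or_ne p 3 with rfl | hp3
    · refine ⟨v, hv, fun h2 => absurd h2 (by norm_num), fun _ => Or.inr ?_,
        fun _ h => absurd h (by norm_num)⟩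
      rw [hdv]
      have h5 : t ^ 2 % 3 = 1 := by
        rcases (by omega : t % 3 = 1 ∨ t % 3 = 2) with h | h <;>
          simp [pow_two, Int.mul_emod, h]
      omega
    have hp2' : ¬ (p : ℤ) ∣ 2 := fun h => hp2
      ((Nat.prime_dvd_prime_iff_eq hp Nat.prime_two).1 (by exact_mod_cast h))
    have hp3' : ¬ (p : ℤ) ∣ 3 := fun h => hp3
      ((Nat.prime_dvd_prime_iff_eq hp Nat.prime_three).1 (by exact_mod_cast h))
    by_cases hpt : (p : ℤ) ∣ t
    · refine ⟨w, hw, fun h => absurd h hp2, fun h => absurd h hp3, fun _ _ h => ?_⟩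
      rw [hdw, show (54 : ℤ) * s ^ 2 = 2 * (3 * (3 * (3 * (s * s)))) by ring] at h
      rcases hpp.dvd_or_dvd h with h | h
      · exact hp2' h
      rcases hpp.dvd_or_dvd h with h | h
      · exact hp3' h
      rcases hpp.dvd_or_dvd h with h | h
      · exact hp3' h
      rcases hpp.dvd_or_dvd h with h | h
      · exact hp3' h
      have hps : (p : ℤ) ∣ s := (hpp.dvd_or_dvd h).elim id id
      exact hpp.not_isUnit (hst.isUnit_of_dvd' hps hpt)
    · refine ⟨v, hv, fun h => absurd h hp2, fun h => absurd h hp3, fun _ _ h => ?_⟩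
      rw [hdv, show (24 : ℤ) * t ^ 2 = 2 * (2 * (2 * (3 * (t * t)))) by ring] at h
      rcases hpp.dvd_or_dvd h with h | h
      · exact hp2' h
      rcases hpp.dvd_or_dvd h with h | h
      · exact hp2' h
      rcases hpp.dvd_or_dvd h with h | h
      · exact hp2' h
      rcases hpp.dvd_or_dvd h with h | h
      · exact hp3' h
      exact hpt ((hpp.dvd_or_dvd h).elim id id)
  · intro h
    obtain ⟨y, hy, hyy⟩ := hilbClass_of_hasHilb hH h
    obtain ⟨c, a, b, rfl⟩ := hall y hy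
    simp only [ip_add_left, ip_add_right, ip_smul_left, ip_smul_right, hvh, hwh, hvv, hww, hvw,
      hwv, hhv, hhw, hH.h_self] at hyy
    exact no_solution (t * a) (s * b) c (by linarith)

end Pool.Agent.R907.Cub
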