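import Pool.Agent.Y95.Q.Defs

/-!
# Cubic fourfolds and the local conditions for associated K3 surfaces: definitions
-/

set_option autoImplicit false

namespace Pool.Agent.R907.Cub

open Pool.Agent.Y95.Q

/-- The theorem of Weber (1882): a primitive positive definite binary quadratic form represents
infinitely many prime numbers. -/
def WeberTheorem : Prop :=
  ∀ a b c : ℤ, 0 < a → b ^ 2 < 4 * a * c →
    (∀ p : ℕ, p.Prime → ¬ ((p : ℤ) ∣ a ∧ (p : ℤ) ∣ b ∧ (p : ℤ) ∣ c)) →
      ∀ N : ℕ, ∃ x y : ℤ, ∃ l : ℕ, l.Prime ∧ N < l ∧ a * x ^ 2 + b * x * y + c * y ^ 2 = l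

/-- The number `d` satisfies the condition (**) at the prime number `p`: it is not divisible by `4`
(`p = 2`), it is not divisible by `3` or is `6` modulo `18` (`p = 3`), it is not divisible by `p`
(`p` odd, `p = 2` modulo `3`). -/
def AdmissibleAt (p : ℕ) (d : ℤ) : Prop :=
  (p = 2 → ¬ 4 ∣ d) ∧ (p = 3 → ¬ 3 ∣ d ∨ d % 18 = 6) ∧ (p ≠ 2 → p % 3 = 2 → ¬ (p : ℤ) ∣ d)

/-- For each prime number `p` there is a Hodge class, depending on `p`, whose discriminant satisfies
the condition (**) at `p`. -/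
def LocallyAdmissible {X : CubicFourfold} (H : H4 X) : Prop :=
  ∀ p : ℕ, p.Prime → ∃ v, H.IsHodge v ∧ AdmissibleAt p (H.disc v)

/-- `X` lies in infinitely many divisors `𝒞_d` with an admissible `d`. -/
def InfinitelyManyK3 {X : CubicFourfold} (H : H4 X) : Prop :=
  ∀ N : ℤ, ∃ v, H.IsHodge v ∧ H.Saturated v ∧ Admissible (H.disc v) ∧ N < H.disc v

end Pool.Agent.R907.Cub
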