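import Pool.Agent.Y95.Q.K3
import Pool.Agent.R907.Cub.LGDefs

/-!
# The local-global principle for associated K3 surfaces
-/

set_option autoImplicit false

namespace Pool.Agent.R907.Cub

open Pool.Agent.Y95.Q Pool.Agent.Y95.Q.H4 Module

section arith

/-- A product of primes which are `1` modulo `3` is `1` modulo `3`. -/
lemma mod_three : ∀ n : ℕ, 0 < n → (∀ p : ℕ, p.Prime → p ∣ n → p % 3 = 1) → n % 3 = 1 := by
  intro n
  induction n using Nat.recOnMul with
  | zero => intro h; omega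
  | one => intro _ _; rfl
  | prime p hp => intro _ h; exact h p hp dvd_rfl
  | mul a b ha hb =>
    intro hab h
    have ha0 : 0 < a := Nat.pos_of_mul_pos_right hab |> fun _ => Nat.pos_of_ne_zero (by
      rintro rfl; simp at hab)
    have hb0 : 0 < b := Nat.pos_of_ne_zero (by rintro rfl; simp at hab)
    have h1 := ha ha0 fun p hp hd => h p hp (hd.mul_right _)
    have h2 := hb hb0 fun p hp hd => h p hp (hd.mul_left _)
    rw [Nat.mul_mod, h1, h2]

/-- The Chinese remainder theorem in an abelian group. -/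
lemma crt {A ι : Type*} [AddCommGroup A] [DecidableEq ι] (T : Finset ι) (n : ι → ℤ)
    (v : ι → A) (hcop : ∀ i ∈ T, ∀ j ∈ T, i ≠ j → IsCoprime (n i) (n j)) :
    ∃ w : A, ∀ i ∈ T, ∃ z : A, w = v i + n i • z := by
  induction T using Finset.induction_on with
  | empty => exact ⟨0, fun i hi => absurd hi (Finset.notMem_empty i)⟩
  | insert t T ht ih =>
    obtain ⟨w, hw⟩ := ih fun i hi j hj => hcop i (Finset.mem_insert_of_mem hi) j
      (Finset.mem_insert_of_mem hj)
    have h1 : IsCoprime (n t) (∏ i ∈ T, n i) := by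
      refine IsCoprime.prod_right fun i hi => hcop t (Finset.mem_insert_self _ _) i
        (Finset.mem_insert_of_mem hi) ?_
      rintro rfl
      exact ht hi
    obtain ⟨a, b, hab⟩ := h1
    refine ⟨(a * n t) • w + (b * ∏ i ∈ T, n i) • v t, fun i hi => ?_⟩
    rcases Finset.mem_insert.1 hi with rfl | hi
    · refine ⟨a • (w - v i), ?_⟩
      have h2 : b * ∏ i ∈ T, n i = 1 - a * n i := by linarith
      rw [h2]
      module
    · obtain ⟨z, hz⟩ := hw i hi
      obtain ⟨N, hN⟩ := Finset.dvd_prod_of_mem n hi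
      refine ⟨z + (b * N) • (v t - w), ?_⟩
      have h2 : a * n t = 1 - b * ∏ i ∈ T, n i := by linarith
      rw [h2, hN]
      conv_lhs => rw [sub_smul, one_smul]
      nth_rewrite 1 [hz]
      module

end arith

variable {X : CubicFourfold} {H : H4 X}

/-- The bilinear form of the discriminants. -/
def bl (H : H4 X) (v w : Fin 23 → ℤ) : ℤ := 3 * H.ip v w - H.ip H.h v * H.ip H.h w

lemma disc_add (hH : H.IsCohomology) (v w : Fin 23 → ℤ) (x y : ℤ) :
    H.disc (x • v + y • w) = x ^ 2 * H.disc v + 2 * x * y * bl H v w + y ^ 2 * H.disc w := by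
  simp only [disc, bl, ip_add_left, ip_add_right, ip_smul_left, ip_smul_right, hH.comm w v]
  ring

lemma disc_even (hH : H.IsCohomology) (v : Fin 23 → ℤ) : Even (H.disc v) := by
  have h1 := hH.char v
  rw [hH.comm v H.h] at h1
  have h3 : H.disc v = 2 * H.ip v v + (H.ip v v - H.ip H.h v) +
      (H.ip H.h v - H.ip H.h v ^ 2) := by
    simp only [disc]; ring
  rw [h3]
  refine Even.add (Even.add (even_two_mul _) h1) ?_
  have h4 : H.ip H.h v - H.ip H.h v ^ 2 = -(H.ip H.h v * (H.ip H.h v - 1)) := by ring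
  rw [h4]
  exact (Int.even_mul_pred_self _).neg

/-- Half of the discriminant. -/
noncomputable def hd (H : H4 X) (v : Fin 23 → ℤ) : ℤ := H.disc v / 2

lemma two_hd (hH : H.IsCohomology) (v : Fin 23 → ℤ) : H.disc v = 2 * hd H v := by
  obtain ⟨k, hk⟩ := disc_even hH v
  rw [hd]
  omega

lemma hd_add (hH : H.IsCohomology) (v w : Fin 23 → ℤ) (x y : ℤ) :
    hd H (x • v + y • w) = x ^ 2 * hd H v + x * y * bl H v w + y ^ 2 * hd H w := by
  have h1 := disc_add hH v w x y
  rw [two_hd hH, two_hd hH v, two_hd hH w] at h1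
  linarith

lemma hd_mod_three (hH : H.IsCohomology) (v : Fin 23 → ℤ) :
    hd H v % 3 = 0 ∨ hd H v % 3 = 1 := by
  have h1 := two_hd hH v
  have h2 : (H.ip H.h v) ^ 2 % 3 = 0 ∨ (H.ip H.h v) ^ 2 % 3 = 1 := by
    rcases (by omega : H.ip H.h v % 3 = 0 ∨ H.ip H.h v % 3 = 1 ∨ H.ip H.h v % 3 = 2) with
      h | h | h <;> simp [pow_two, Int.mul_emod, h]
  rw [disc] at h1
  omega

lemma disc_pos (hH : H.IsCohomology) {u : Fin 23 → ℤ} (hu : H.IsHodge u)
    (h : (3 : ℤ) • u - H.ip H.h u • H.h ≠ 0) : 0 < H.disc u := by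
  have h1 : H.IsHodge ((3 : ℤ) • u - H.ip H.h u • H.h) :=
    H.isHodge_sub (H.isHodge_smul _ hu) (H.isHodge_smul _ hH.h_hodge)
  have h2 := hH.pos _ h1 h
  have h3 : H.ip ((3 : ℤ) • u - H.ip H.h u • H.h) ((3 : ℤ) • u - H.ip H.h u • H.h) =
      3 * H.disc u := by
    simp only [disc, ip_sub_left, ip_sub_right, ip_smul_left, ip_smul_right, hH.h_self,
      hH.comm u H.h]
    ring
  rw [h3] at h2
  linarith

/-- Three independent Hodge classes. -/
lemma exists_three (hH : H.IsCohomology) (hρ : 3 ≤ H.rank) :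
    ∃ v u, H.IsHodge v ∧ H.IsHodge u ∧
      ∀ a b c : ℤ, a • H.h + b • v + c • u = 0 → a = 0 ∧ b = 0 ∧ c = 0 := by
  rw [H.rank_eq] at hρ
  have hh0 : H.h ≠ 0 := by
    intro h0
    have := hH.h_self
    rw [h0] at this
    simp [ip] at this
  let h' : H.hodge := ⟨H.h, hH.h_hodge⟩
  have h1 : LinearIndependent ℤ (![h'] : Fin 1 → H.hodge) := by
    refine LinearIndependent.of_subsingleton (0 : Fin 1) ?_
    intro h0
    exact hh0 (congrArg Subtype.val h0)
  obtain ⟨v, hv⟩ := exists_linearIndependent_snoc_of_lt_finrank h1 (by omega)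
  obtain ⟨u, hu⟩ := exists_linearIndependent_snoc_of_lt_finrank hv (by omega)
  refine ⟨v, u, v.2, u.2, fun a b c habc => ?_⟩
  have h2 := Fintype.linearIndependent_iff.1 hu ![a, b, c] (by
    apply Subtype.ext
    rw [Fin.sum_univ_three]
    exact habc)
  exact ⟨h2 0, h2 1, h2 2⟩

/-- An admissible number satisfies the local conditions. -/
lemma admissibleAt_of_admissible {d : ℤ} (he : Even d) (h : Admissible d) {p : ℕ}
    (hpp : p.Prime) : AdmissibleAt p d := by
  obtain ⟨h6, h4, h9, hp⟩ := h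
  refine ⟨fun _ => h4, fun _ => ?_, fun hp2 hp3 hd => ?_⟩
  · by_cases h3 : (3 : ℤ) ∣ d
    · right
      obtain ⟨m, hm⟩ : (6 : ℤ) ∣ d := by
        obtain ⟨k, hk⟩ := he
        omega
      have hm0 : 0 < m := by omega
      have h1 : m.toNat % 3 = 1 := by
        refine mod_three _ (by omega) fun q hq hqd => ?_
        have hqd' : (q : ℤ) ∣ m := by
          have : ((m.toNat : ℕ) : ℤ) = m := Int.toNat_of_nonneg hm0.le
          rw [← this]
          exact_mod_cast hqd
        have hqdd : (q : ℤ) ∣ d := hm ▸ hqd'.mul_left _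
        have hq2 : q ≠ 2 := by
          rintro rfl
          apply h4
          rw [hm]
          obtain ⟨t, ht⟩ := hqd'
          exact ⟨3 * t, by push_cast at ht; rw [ht]; ring⟩
        have hq3 : q % 3 ≠ 0 := by
          intro h0
          have h3q : 3 ∣ q := Nat.dvd_of_mod_eq_zero h0
          have : q = 3 := ((Nat.prime_dvd_prime_iff_eq Nat.prime_three hq).1 h3q).symm
          subst this
          apply h9
          rw [hm]
          obtain ⟨t, ht⟩ := hqd'
          exact ⟨2 * t, by push_cast at ht; rw [ht]; ring⟩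
        have := hp q hq hq2 hqdd
        omega
      omega
    · exact Or.inl h3
  · exact hp p hpp hp2 hd hp3

lemma crt_hodge (T : Finset ℕ) (n : ℕ → ℤ) (hn : ∀ p ∈ T, n p ≠ 0)
    (V : ℕ → H.hodge) (hcop : ∀ i ∈ T, ∀ j ∈ T, i ≠ j → IsCoprime (n i) (n j))
    {v u : Fin 23 → ℤ} (hu : H.IsHodge u)
    (hind : ∀ a b c : ℤ, a • H.h + b • v + c • u = 0 → a = 0 ∧ b = 0 ∧ c = 0) :
    ∃ w : H.hodge, (∀ p ∈ T, ∃ z : H.hodge, w = V p + n p • z) ∧
      ∀ a b c : ℤ, a • H.h + b • v + c • (w : Fin 23 → ℤ) = 0 → c = 0 := by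
  obtain ⟨w₀, hw₀⟩ := crt T n V hcop
  set M : ℤ := ∏ p ∈ T, n p with hM
  have hM0 : M ≠ 0 := Finset.prod_ne_zero_iff.2 hn
  by_cases h0 : ∀ a b c : ℤ, a • H.h + b • v + c • (w₀ : Fin 23 → ℤ) = 0 → c = 0
  · exact ⟨w₀, hw₀, h0⟩
  push Not at h0
  obtain ⟨a, b, c, habc, hc⟩ := h0
  let u' : H.hodge := ⟨u, hu⟩
  refine ⟨w₀ + M • u', fun p hp => ?_, fun a' b' c' h' => ?_⟩
  · obtain ⟨z, hz⟩ := hw₀ p hp
    obtain ⟨N, hN⟩ := Finset.dvd_prod_of_mem n hp
    refine ⟨z + N • u', ?_⟩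
    rw [hz, hM, hN]
    module
  · have h2 : a' • H.h + b' • v + c' • ((w₀ : Fin 23 → ℤ) + M • u) = 0 := h'
    have h3 : (c * a' - c' * a) • H.h + (c * b' - c' * b) • v + (c * c' * M) • u = 0 := by
      have h4 : (c * a' - c' * a) • H.h + (c * b' - c' * b) • v + (c * c' * M) • u =
          c • (a' • H.h + b' • v + c' • ((w₀ : Fin 23 → ℤ) + M • u)) -
            c' • (a • H.h + b • v + c • (w₀ : Fin 23 → ℤ)) := by module
      rw [h4, h2, habc]
      simp
    have h5 := (hind _ _ _ h3).2.2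
    rcases mul_eq_zero.1 h5 with h6 | h6
    · exact (mul_eq_zero.1 h6).resolve_left hc
    · exact absurd h6 hM0

/-- **The local conditions give infinitely many associated K3 surfaces.** -/
theorem infinitely_many (hH : H.IsCohomology) (hW : WeberTheorem) (hρ : 3 ≤ H.rank)
    (hL : LocallyAdmissible H) : InfinitelyManyK3 H := by
  classical
  intro N
  obtain ⟨v, u, hv, hu, hind⟩ := exists_three hH hρ
  have hvpos : 0 < H.disc v := by
    refine disc_pos hH hv fun h0 => ?_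
    have h1 := hind (-(H.ip H.h v)) 3 0 (by rw [← h0]; module)
    omega
  set v' : Fin 23 → ℤ := (9 : ℤ) • v with hv'
  have hv'H : H.IsHodge v' := H.isHodge_smul _ hv
  have ha81 : hd H v' = 81 * hd H v := by
    have := hd_add hH v 0 9 0
    rw [zero_smul, add_zero] at this
    rw [hv', this]
    ring
  set a : ℤ := hd H v' with ha
  have ha0 : 0 < a := by
    have := two_hd hH v
    omega
  choose vp hvp hloc using hL
  set T : Finset ℕ := a.natAbs.primeFactors with hT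
  let n : ℕ → ℤ := fun p => if p = 3 then 9 else p
  let V : ℕ → H.hodge := fun p => if hp : p.Prime then ⟨vp p hp, hvp p hp⟩ else 0
  have hprime : ∀ p ∈ T, p.Prime := fun p hp => Nat.prime_of_mem_primeFactors hp
  have hn0 : ∀ p ∈ T, n p ≠ 0 := by
    intro p hp
    by_cases h3 : p = 3
    · simp [n, h3]
    · simp only [n, if_neg h3]
      exact_mod_cast (hprime p hp).ne_zero
  have hcop : ∀ i ∈ T, ∀ j ∈ T, i ≠ j → IsCoprime (n i) (n j) := by
    intro i hi j hj hij
    have hc : IsCoprime (i : ℤ) (j : ℤ) :=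
      Nat.isCoprime_iff_coprime.2 ((Nat.coprime_primes (hprime i hi) (hprime j hj)).2 hij)
    by_cases hi3 : i = 3
    · subst hi3
      have hj3 : j ≠ 3 := fun h => hij h.symm
      have h9 : (n 3 : ℤ) = (3 : ℤ) ^ 2 := by simp [n]
      rw [h9]
      simp only [n, if_neg hj3]
      exact hc.pow_left
    · by_cases hj3 : j = 3
      · subst hj3
        have h9 : (n 3 : ℤ) = (3 : ℤ) ^ 2 := by simp [n]
        rw [h9]
        simp only [n, if_neg hi3]
        exact hc.pow_right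
      · simp only [n, if_neg hi3, if_neg hj3]
        exact hc
  obtain ⟨w, hw, hwind⟩ := crt_hodge T n hn0 V hcop hu hind
  set g : ℤ := hd H w with hg
  set b : ℤ := bl H v' w with hb
  have hb9 : b = 9 * bl H v w := by
    rw [hb, hv', bl, bl, ip_smul_left, ip_smul_right]
    ring
  have hform : ∀ x y : ℤ, hd H (x • v' + y • (w : Fin 23 → ℤ)) =
      a * x ^ 2 + b * x * y + g * y ^ 2 := by
    intro x y
    rw [hd_add hH]
    ring
  have hpd : b ^ 2 < 4 * a * g := by
    have h1 : 0 < H.disc ((-b) • v' + (2 * a) • (w : Fin 23 → ℤ)) := by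
      refine disc_pos hH (H.isHodge_add (H.isHodge_smul _ hv'H) (H.isHodge_smul _ w.2))
        fun h0 => ?_
      set c := H.ip H.h ((-b) • v' + (2 * a) • (w : Fin 23 → ℤ)) with hc
      have h2 := hwind (-c) (-27 * b) (6 * a) (by
        rw [← h0, hv']
        module)
      omega
    rw [two_hd hH, hform] at h1
    have h2 : 2 * (a * (-b) ^ 2 + b * (-b) * (2 * a) + g * (2 * a) ^ 2) =
        2 * a * (4 * a * g - b ^ 2) := by ring
    rw [h2] at h1
    have h3 := (mul_pos_iff_of_pos_left (by positivity : 0 < 2 * a)).1 h1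
    linarith
  -- the content
  set c : ℕ := Int.gcd (Int.gcd a b) g with hcdef
  have hca : (c : ℤ) ∣ a := (Int.gcd_dvd_left _ _).trans (Int.gcd_dvd_left _ _)
  have hcb : (c : ℤ) ∣ b := (Int.gcd_dvd_left _ _).trans (Int.gcd_dvd_right _ _)
  have hcg : (c : ℤ) ∣ g := Int.gcd_dvd_right _ _
  have hc0 : 0 < c := by
    rcases Nat.eq_zero_or_pos c with h | h
    · rw [h] at hca
      simp at hca
      omega
    · exact h
  have hc0' : (c : ℤ) ≠ 0 := by exact_mod_cast hc0.ne'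
  obtain ⟨a₁, ha₁⟩ := hca
  obtain ⟨b₁, hb₁⟩ := hcb
  obtain ⟨g₁, hg₁⟩ := hcg
  have hprim : ∀ p : ℕ, p.Prime → ¬ ((p : ℤ) ∣ a₁ ∧ (p : ℤ) ∣ b₁ ∧ (p : ℤ) ∣ g₁) := by
    rintro p hp ⟨⟨a₂, ha₂⟩, ⟨b₂, hb₂⟩, ⟨g₂, hg₂⟩⟩
    have h1 : ((c * p : ℕ) : ℤ) ∣ (c : ℤ) := by
      have h2 : ((c * p : ℕ) : ℤ) ∣ a := ⟨a₂, by rw [ha₁, ha₂]; push_cast; ring⟩
      have h3 : ((c * p : ℕ) : ℤ) ∣ b := ⟨b₂, by rw [hb₁, hb₂]; push_cast; ring⟩
      have h4 : ((c * p : ℕ) : ℤ) ∣ g := ⟨g₂, by rw [hg₁, hg₂]; push_cast; ring⟩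
      have h5 : ((c * p : ℕ) : ℤ) ∣ (Int.gcd a b : ℤ) := Int.dvd_coe_gcd h2 h3
      rw [hcdef]
      exact Int.dvd_coe_gcd h5 h4
    have h2 : c * p ∣ c := by exact_mod_cast h1
    have h3 := Nat.le_of_dvd hc0 h2
    have := hp.two_le
    nlinarith
  -- the primes in the content
  have hval : ∀ (p : ℕ) (hp : p.Prime), p ∣ c → ∃ z : H.hodge, (w : Fin 23 → ℤ) =
      (1 : ℤ) • (vp p hp : Fin 23 → ℤ) + n p • (z : Fin 23 → ℤ) := by
    intro p hp hpc
    have h1 : p ∈ T := by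
      rw [hT, Nat.mem_primeFactors]
      refine ⟨hp, ?_, by omega⟩
      have h2 : (p : ℤ) ∣ a := by
        rw [ha₁]
        exact (Int.natCast_dvd_natCast.2 hpc).mul_right _
      exact Int.natCast_dvd.1 h2
    obtain ⟨z, hz⟩ := hw p h1
    refine ⟨z, ?_⟩
    rw [hz]
    simp only [V, dif_pos hp, one_smul]
    rfl
  have hc2 : ¬ 2 ∣ c := by
    intro h
    obtain ⟨z, hz⟩ := hval 2 Nat.prime_two h
    have h1 : g = hd H (vp 2 Nat.prime_two) + 2 * bl H (vp 2 Nat.prime_two) z +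
        4 * hd H z := by
      rw [hg, hz, hd_add hH]
      simp only [n]
      norm_num
    have h2 : (2 : ℤ) ∣ g := by
      rw [hg₁]
      exact (by exact_mod_cast h : (2 : ℤ) ∣ c).mul_right _
    apply (hloc 2 Nat.prime_two).1 rfl
    rw [two_hd hH]
    omega
  have hcp : ∀ p : ℕ, p.Prime → p ∣ c → p ≠ 3 → p % 3 = 1 := by
    intro p hp hpc hp3
    have hp2 : p ≠ 2 := by
      rintro rfl
      exact hc2 hpc
    by_contra hcon
    have h30 : p % 3 ≠ 0 := by
      intro h0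
      exact hp3 ((Nat.prime_dvd_prime_iff_eq Nat.prime_three hp).1
        (Nat.dvd_of_mod_eq_zero h0)).symm
    have h32 : p % 3 = 2 := by omega
    obtain ⟨z, hz⟩ := hval p hp hpc
    have h1 : g = hd H (vp p hp) + p * (bl H (vp p hp) z + p * hd H z) := by
      rw [hg, hz, hd_add hH]
      simp only [n, if_neg hp3]
      ring
    have h2 : (p : ℤ) ∣ g := by
      rw [hg₁]
      exact (Int.natCast_dvd_natCast.2 hpc).mul_right _
    apply (hloc p hp).2.2 hp2 h32
    rw [two_hd hH]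
    apply Dvd.dvd.mul_left
    rw [h1] at h2
    exact (Int.dvd_add_left (Dvd.intro _ rfl)).1 h2
  -- the prime three
  have h3T : (3 : ℕ) ∈ T := by
    rw [hT, Nat.mem_primeFactors]
    refine ⟨Nat.prime_three, ?_, by omega⟩
    apply Int.natCast_dvd.1
    exact ⟨27 * hd H v, by rw [ha81]; push_cast; ring⟩
  have hg3 : g % 3 = 1 ∨ g % 9 = 3 := by
    obtain ⟨z, hz⟩ := hw 3 h3T
    have h1 : (w : Fin 23 → ℤ) =
        (1 : ℤ) • (vp 3 Nat.prime_three : Fin 23 → ℤ) + (9 : ℤ) • (z : Fin 23 → ℤ) := by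
      rw [hz]
      simp only [V, dif_pos Nat.prime_three, one_smul]
      rfl
    have h2 : g = hd H (vp 3 Nat.prime_three) + 9 * bl H (vp 3 Nat.prime_three) z +
        81 * hd H z := by
      rw [hg, h1, hd_add hH]
      ring
    have h3 := (hloc 3 Nat.prime_three).2.1 rfl
    rw [two_hd hH] at h3
    have h4 := hd_mod_three hH (w : Fin 23 → ℤ)
    rw [← hg] at h4
    omega
  -- the prime number
  obtain ⟨x, y, l, hl, hNl, hxy⟩ := hW a₁ b₁ g₁ (by
      have : 0 < (c : ℤ) * a₁ := ha₁ ▸ ha0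
      exact (mul_pos_iff_of_pos_left (by exact_mod_cast hc0)).1 this) (by
      have h1 : (c : ℤ) ^ 2 * b₁ ^ 2 < (c : ℤ) ^ 2 * (4 * a₁ * g₁) := by
        calc (c : ℤ) ^ 2 * b₁ ^ 2 = b ^ 2 := by rw [hb₁]; ring
          _ < 4 * a * g := hpd
          _ = (c : ℤ) ^ 2 * (4 * a₁ * g₁) := by rw [ha₁, hg₁]; ring
      exact lt_of_mul_lt_mul_left h1 (by positivity)) hprim (N.toNat + 2 * c + 3)
  set U : Fin 23 → ℤ := x • v' + y • (w : Fin 23 → ℤ) with hU
  have hUd : hd H U = c * l := by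
    rw [hU, hform, ← hxy, ha₁, hb₁, hg₁]
    ring
  have hUH : H.IsHodge U := H.isHodge_add (H.isHodge_smul _ hv'H) (H.isHodge_smul _ w.2)
  have hl0 : 0 < l := hl.pos
  have hl3 : l % 3 ≠ 0 := by
    intro h0
    have := (Nat.prime_dvd_prime_iff_eq Nat.prime_three hl).1 (Nat.dvd_of_mod_eq_zero h0)
    omega
  have hl2 : l % 2 ≠ 0 := by
    intro h0
    have := (Nat.prime_dvd_prime_iff_eq Nat.prime_two hl).1 (Nat.dvd_of_mod_eq_zero h0)
    omega
  -- everything modulo nine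
  obtain ⟨k, hk⟩ : ∃ k : ℤ, (c : ℤ) * l = g * y ^ 2 + 9 * k := by
    refine ⟨9 * hd H v * x ^ 2 + bl H v w * x * y, ?_⟩
    rw [← hUd, hU, hform, ha81, hb9]
    ring
  have hy2 : ∀ z : ℤ, z ^ 2 % 3 = 0 ∨ z ^ 2 % 3 = 1 := by
    intro z
    rcases (by omega : z % 3 = 0 ∨ z % 3 = 1 ∨ z % 3 = 2) with h | h | h <;>
      simp [pow_two, Int.mul_emod, h]
  have hc9 : ¬ 9 ∣ c := by
    intro h
    have h2 : (9 : ℤ) ∣ g := by
      rw [hg₁]
      exact (by exact_mod_cast h : (9 : ℤ) ∣ c).mul_right _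
    omega
  have hl1 : l % 3 = 1 := by
    have hyy := hy2 y
    rcases hg3 with h | h
    · have hc3 : ¬ 3 ∣ c := by
        intro h3
        have h2 : (3 : ℤ) ∣ g := by
          rw [hg₁]
          exact (by exact_mod_cast h3 : (3 : ℤ) ∣ c).mul_right _
        omega
      have hc1 : c % 3 = 1 := mod_three c hc0 fun p hp hpc => hcp p hp hpc (by
        rintro rfl
        exact hc3 hpc)
      have h1 : ((c : ℤ) * l) % 3 = (l : ℤ) % 3 := by
        rw [Int.mul_emod, show (c : ℤ) % 3 = 1 by omega, one_mul, Int.emod_emod_of_dvd _ dvd_rfl]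
      have h2 : (g * y ^ 2) % 3 = y ^ 2 % 3 := by
        rw [Int.mul_emod, h, one_mul, Int.emod_emod_of_dvd _ dvd_rfl]
      omega
    · obtain ⟨g₂, hg₂⟩ : ∃ g₂, g = 3 * g₂ ∧ g₂ % 3 = 1 := ⟨g / 3, by omega, by omega⟩
      obtain ⟨c₂, hc₂⟩ : 3 ∣ c := by
        have h3a : (3 : ℤ) ∣ a := ⟨27 * hd H v, by rw [ha81]; ring⟩
        have h3b : (3 : ℤ) ∣ b := ⟨3 * bl H v w, by rw [hb9]; ring⟩
        have h3g : (3 : ℤ) ∣ g := ⟨g₂, hg₂.1⟩
        have : (3 : ℤ) ∣ (c : ℤ) := by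
          rw [hcdef]
          exact Int.dvd_coe_gcd (Int.dvd_coe_gcd h3a h3b) h3g
        exact_mod_cast this
      have hc1 : c₂ % 3 = 1 := mod_three c₂ (by omega) fun p hp hpc => hcp p hp
        (hc₂ ▸ hpc.mul_left _) (by
          rintro rfl
          apply hc9
          rw [hc₂]
          obtain ⟨t, ht⟩ := hpc
          exact ⟨t, by rw [ht]; ring⟩)
      have h1 : ((c₂ : ℤ) * l) % 3 = (l : ℤ) % 3 := by
        rw [Int.mul_emod, show (c₂ : ℤ) % 3 = 1 by omega, one_mul,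
          Int.emod_emod_of_dvd _ dvd_rfl]
      have h2 : (g₂ * y ^ 2) % 3 = y ^ 2 % 3 := by
        rw [Int.mul_emod, hg₂.2, one_mul, Int.emod_emod_of_dvd _ dvd_rfl]
      have h3 : (c₂ : ℤ) * l = g₂ * y ^ 2 + 3 * k := by
        have h4 : (3 : ℤ) * (c₂ * l) = 3 * (g₂ * y ^ 2 + 3 * k) := by
          calc (3 : ℤ) * (c₂ * l) = (c : ℤ) * l := by rw [hc₂]; push_cast; ring
            _ = g * y ^ 2 + 9 * k := hk
            _ = _ := by rw [hg₂.1]; ring
        linarith
      omega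
  -- saturation
  have hUpos : 0 < H.disc U := by
    rw [two_hd hH, hUd]
    positivity
  obtain ⟨w', m, t, hm, hsat, hw'⟩ := hH.exists_saturated U hUpos
  have hw'H : H.IsHodge w' := by
    refine H.isHodge_of_smul hm.ne' ?_
    have h1 : m • w' = U - t • H.h := by
      rw [hw']
      abel
    rw [h1]
    exact H.isHodge_sub hUH (H.isHodge_smul _ hH.h_hodge)
  have hmd : m ^ 2 * H.disc w' = 2 * (c * l) := by
    rw [← hUd, ← two_hd hH, hw', hH.disc_comb]
  have hd0 : 0 < H.disc w' := by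
    by_contra hcon
    push Not at hcon
    have : m ^ 2 * H.disc w' ≤ 0 := mul_nonpos_of_nonneg_of_nonpos (by positivity) hcon
    rw [hmd] at this
    have : (0 : ℤ) < 2 * (c * l) := by positivity
    omega
  have hdvd : H.disc w' ∣ 2 * ((c : ℤ) * l) := ⟨m ^ 2, by rw [← hmd]; ring⟩
  refine ⟨w', hw'H, hsat, ⟨hH.six_lt hw'H hd0, ?_, ?_, ?_⟩, ?_⟩
  · intro h4
    have h5 : (4 : ℤ) ∣ 2 * ((c : ℤ) * l) := h4.trans hdvd
    have h6 : (2 : ℤ) ∣ (c : ℤ) * l := by omega
    have h7 : 2 ∣ c * l := by exact_mod_cast h6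
    rcases (Nat.Prime.dvd_mul Nat.prime_two).1 h7 with h | h
    · exact hc2 h
    · omega
  · intro h9
    have h5 : (9 : ℤ) ∣ 2 * ((c : ℤ) * l) := h9.trans hdvd
    have h6 : (9 : ℤ) ∣ (c : ℤ) * l := by
      refine Int.dvd_of_dvd_mul_right_of_gcd_one h5 ?_
      decide
    have h7 : 9 ∣ c * l := by exact_mod_cast h6
    have h8 : Nat.Coprime 9 l := by
      have : Nat.Coprime 3 l := (Nat.coprime_primes Nat.prime_three hl).2 (by omega)
      exact (Nat.Coprime.pow_left 2 this)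
    exact hc9 (h8.dvd_of_dvd_mul_right h7)
  · intro p hp hp2 hpd
    have h5 : (p : ℤ) ∣ 2 * ((c : ℤ) * l) := hpd.trans hdvd
    have h6 : p ∣ 2 * (c * l) := by exact_mod_cast h5
    rcases (Nat.Prime.dvd_mul hp).1 h6 with h | h
    · exact absurd ((Nat.prime_dvd_prime_iff_eq hp Nat.prime_two).1 h) hp2
    · rcases (Nat.Prime.dvd_mul hp).1 h with h | h
      · by_cases hp3 : p = 3
        · omega
        · have := hcp p hp h hp3
          omega
      · rw [(Nat.prime_dvd_prime_iff_eq hp hl).1 h]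
        omega
  · have h1 : (l : ℤ) ∣ m ^ 2 * H.disc w' := by
      rw [hmd]
      exact ⟨2 * c, by ring⟩
    have hlp : Prime (l : ℤ) := Nat.prime_iff_prime_int.1 hl
    have h2 : ¬ (l : ℤ) ∣ m ^ 2 := by
      intro h
      obtain ⟨s, hs⟩ := hlp.dvd_of_dvd_pow h
      have h3 : (l : ℤ) * (l * (s ^ 2 * H.disc w')) = l * (2 * c) := by
        have : m ^ 2 * H.disc w' = (l : ℤ) * (l * (s ^ 2 * H.disc w')) := by rw [hs]; ring
        rw [← this, hmd]
        ring
      have h4 : (l : ℤ) * (s ^ 2 * H.disc w') = 2 * c :=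
        mul_left_cancel₀ (by exact_mod_cast hl0.ne') h3
      have h5 : (l : ℤ) ∣ 2 * c := ⟨_, h4.symm⟩
      have h6 := Int.le_of_dvd (by positivity) h5
      omega
    have h3 : (l : ℤ) ∣ H.disc w' := (hlp.dvd_or_dvd h1).resolve_left h2
    have h4 := Int.le_of_dvd hd0 h3
    omega

/-- Two discriminants with greatest common divisor two. -/
lemma locallyAdmissible_of_gcd {v w : Fin 23 → ℤ} (hv : H.IsHodge v)
    (hw : H.IsHodge w) (h : Int.gcd (H.disc v) (H.disc w) = 2) : LocallyAdmissible H := by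
  have key : ∀ n : ℤ, n ∣ H.disc v → n ∣ H.disc w → n ∣ 2 := fun n h1 h2 => by
    have := Int.dvd_coe_gcd h1 h2
    rwa [h] at this
  intro p hp
  by_cases hpv : AdmissibleAt p (H.disc v)
  · exact ⟨v, hv, hpv⟩
  refine ⟨w, hw, ?_⟩
  refine ⟨?_, ?_, ?_⟩
  · rintro rfl h4
    apply hpv
    refine ⟨fun _ h4' => ?_, fun h3 => absurd h3 (by norm_num), fun h2 => absurd rfl h2⟩
    have := key 4 h4' h4
    norm_num at this
  · rintro rfl
    left
    intro h3
    apply hpv
    refine ⟨fun h2 => absurd h2 (by norm_num), fun _ => Or.inl fun h3' => ?_, fun _ h => ?_⟩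
    · have := key 3 h3' h3
      norm_num at this
    · norm_num at h
  · intro hp2 hp3 hd
    apply hpv
    refine ⟨fun h2 => absurd h2 hp2, fun h3 => ?_, fun _ _ hd' => ?_⟩
    · rw [h3] at hp3
      norm_num at hp3
    · have h1 := key p hd' hd
      have h2 : p ∣ 2 := by exact_mod_cast h1
      exact hp2 ((Nat.prime_dvd_prime_iff_eq hp Nat.prime_two).1 h2)

/-- **The local-global principle.** -/
theorem hasK3_iff (hH : H.IsCohomology) (hW : WeberTheorem) (hρ : 3 ≤ H.rank) :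
    List.TFAE [H.HasK3, LocallyAdmissible H, InfinitelyManyK3 H] := by
  tfae_have 1 → 2 := by
    rintro ⟨v, hv, -, hadm⟩ p hp
    exact ⟨v, hv, admissibleAt_of_admissible (disc_even hH v) hadm hp⟩
  tfae_have 2 → 3 := infinitely_many hH hW hρ
  tfae_have 3 → 1 := by
    intro h
    obtain ⟨v, hv, hs, ha, -⟩ := h 0
    exact ⟨v, hv, hs, ha⟩
  tfae_finish

end Pool.Agent.R907.Cub
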