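import Pool.Agent.R907.Cub.Defs
import Pool.Agent.R907.Cub.LG
import Pool.Agent.R907.Cub.Weber

/-!
# The discriminant of the group of Hodge classes and associated K3 surfaces
-/

set_option autoImplicit false

namespace Pool.Agent.R907.Cub

open Pool.Agent.Y95.Q Pool.Agent.Y95.Q.H4 Module Matrix

/-- The determinant of a matrix which is of rank one modulo `p`. -/
lemma det_rank_one (p : ℤ) {r : ℕ} (u v : Fin r → ℤ) (E : Fin r → Fin r → ℤ) :
    p ^ (r - 1) ∣ (Matrix.of fun i j => u i * v j + p * E i j).det := by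
  classical
  let f := (Matrix.detRowAlternating : (Fin r → ℤ) [⋀^Fin r]→ₗ[ℤ] ℤ)
  let m : Fin r → Fin r → ℤ := fun i => u i • v
  let m' : Fin r → Fin r → ℤ := fun i => p • E i
  have h0 : (Matrix.of fun i j => u i * v j + p * E i j).det = f.toMultilinearMap (m + m') := by
    change Matrix.det _ = Matrix.det (m + m')
    congr 1
  rw [h0, MultilinearMap.map_add_univ]
  refine Finset.dvd_sum fun s _ => ?_
  rcases le_or_gt s.card 1 with hs | hs
  · have h1 : s.piecewise m m' = sᶜ.piecewise (fun i => p • (s.piecewise m E) i)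
        (s.piecewise m E) := by
      funext i
      by_cases hi : i ∈ s
      · rw [Finset.piecewise_eq_of_mem _ _ _ hi,
          Finset.piecewise_eq_of_notMem _ _ _ (by simpa using hi),
          Finset.piecewise_eq_of_mem _ _ _ hi]
      · rw [Finset.piecewise_eq_of_notMem _ _ _ hi,
          Finset.piecewise_eq_of_mem _ _ _ (by simpa using hi),
          Finset.piecewise_eq_of_notMem _ _ _ hi]
    rw [h1, MultilinearMap.map_piecewise_smul, Finset.prod_const, Finset.card_compl,
      Fintype.card_fin, smul_eq_mul]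
    exact (pow_dvd_pow _ (by omega)).mul_right _
  · obtain ⟨i, hi, j, hj, hij⟩ := Finset.one_lt_card.1 hs
    have h1 : s.piecewise m m' = s.piecewise (fun i => u i • (s.piecewise (fun _ => v) m') i)
        (s.piecewise (fun _ => v) m') := by
      funext i
      by_cases hi : i ∈ s
      · rw [Finset.piecewise_eq_of_mem _ _ _ hi, Finset.piecewise_eq_of_mem _ _ _ hi,
          Finset.piecewise_eq_of_mem _ _ _ hi]
      · rw [Finset.piecewise_eq_of_notMem _ _ _ hi, Finset.piecewise_eq_of_notMem _ _ _ hi,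
          Finset.piecewise_eq_of_notMem _ _ _ hi]
    rw [h1, MultilinearMap.map_piecewise_smul]
    have h2 : f.toMultilinearMap (s.piecewise (fun _ => v) m') = 0 := by
      refine f.map_eq_zero_of_eq _ ?_ hij
      rw [Finset.piecewise_eq_of_mem _ _ _ hi, Finset.piecewise_eq_of_mem _ _ _ hj]
    rw [h2, smul_zero]
    exact dvd_zero _

variable {X : CubicFourfold} {H : H4 X} {r : ℕ} (b : Basis (Fin r) ℤ H.hodge)

/-- A form which is of rank one modulo `p`. -/
lemma pow_dvd_hodgeDet {p : ℕ} (hp : p.Prime) (c : ℤ) (hc : ¬ (p : ℤ) ∣ c) (l : Fin r → ℤ)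
    (h : ∀ i j, (p : ℤ) ∣ c * H.ip (b i) (b j) - l i * l j) :
    (p : ℤ) ^ (r - 1) ∣ hodgeDet H b := by
  choose E hE using h
  have h1 : c ^ r * hodgeDet H b =
      (Matrix.of fun i j => l i * l j + (p : ℤ) * E i j).det := by
    have h2 : (Matrix.of fun i j => l i * l j + (p : ℤ) * E i j) =
        c • (Matrix.of fun i j => H.ip (b i) (b j)) := by
      ext i j
      rw [Matrix.smul_apply, Matrix.of_apply, Matrix.of_apply, ← hE i j, smul_eq_mul]
      ring
    rw [h2, Matrix.det_smul, Fintype.card_fin, hodgeDet]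
  have h2 : (p : ℤ) ^ (r - 1) ∣ c ^ r * hodgeDet H b := by
    rw [h1]
    exact det_rank_one _ _ _ _
  refine IsCoprime.dvd_of_dvd_mul_left ?_ h2
  exact IsCoprime.pow ((Prime.coprime_iff_not_dvd (Nat.prime_iff_prime_int.1 hp)).2 hc)

/-- **The discriminant criterion.** -/
theorem locallyAdmissible_of_det (hH : H.IsCohomology)
    (h : ∀ p : ℕ, p.Prime → p % 3 ≠ 1 → ¬ (p : ℤ) ^ (r - 1) ∣ hodgeDet H b) :
    LocallyAdmissible H := by
  intro p hp
  by_contra hcon
  push Not at hcon
  have hpp : Prime (p : ℤ) := Nat.prime_iff_prime_int.1 hp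
  have hadd : ∀ v w : Fin 23 → ℤ, H.disc (v + w) = H.disc v + 2 * bl H v w + H.disc w := by
    intro v w
    have := disc_add hH v w 1 1
    simpa using this
  by_cases h3 : p = 3
  · subst h3
    -- everything modulo three
    have h1 : ∀ v, H.IsHodge v → (3 : ℤ) ∣ H.ip H.h v ∧ ¬ H.disc v % 18 = 6 := by
      intro v hv
      have h2 := hcon v hv
      have h3 : ¬ (¬ (3 : ℤ) ∣ H.disc v ∨ H.disc v % 18 = 6) := fun h4 =>
        h2 ⟨fun h5 => absurd h5 (by norm_num), fun _ => h4, fun _ h5 => absurd h5 (by norm_num)⟩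
      push Not at h3
      refine ⟨?_, h3.2⟩
      have h4 : (3 : ℤ) ∣ H.ip H.h v ^ 2 := by
        have h5 : H.ip H.h v ^ 2 = 3 * H.ip v v - H.disc v := by rw [disc]; ring
        rw [h5]
        exact dvd_sub (Dvd.intro _ rfl) h3.1
      exact Int.prime_three.dvd_of_dvd_pow h4
    have h2 : ∀ v : H.hodge, ∃ c : ℤ, H.ip H.h v = 3 * c := fun v => (h1 v v.2).1
    choose c hc using h2
    -- the form divided by three
    let β : H.hodge → H.hodge → ℤ := fun v w => H.ip v w - 3 * c v * c w
    have hβd : ∀ v : H.hodge, H.disc (v : Fin 23 → ℤ) = 3 * β v v := by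
      intro v
      simp only [β]
      rw [disc, hc v]
      ring
    have hβb : ∀ v w : H.hodge, bl H v w = 3 * β v w := by
      intro v w
      simp only [β]
      rw [bl, hc v, hc w]
      ring
    have hmod : ∀ v, β v v % 3 = 0 ∨ β v v % 3 = 1 := by
      intro v
      have h3 := (h1 v v.2).2
      have h4 := hβd v
      obtain ⟨k, hk⟩ := disc_even hH (v : Fin 23 → ℤ)
      omega
    have hpol : ∀ v w, β (v + w) (v + w) = β v v + 2 * β v w + β w w := by
      intro v w
      have h3 := hadd v w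
      have h4 : ((v + w : H.hodge) : Fin 23 → ℤ) = (v : Fin 23 → ℤ) + w := rfl
      rw [← h4, hβd, hβd, hβd, hβb] at h3
      linarith
    have hpol' : ∀ v w, β (v - w) (v - w) = β v v - 2 * β v w + β w w := by
      intro v w
      have h3 := disc_add hH v w 1 (-1)
      have h4 : (1 : ℤ) • (v : Fin 23 → ℤ) + (-1 : ℤ) • (w : Fin 23 → ℤ) =
          ((v - w : H.hodge) : Fin 23 → ℤ) := by
        rw [one_smul, neg_one_smul, ← sub_eq_add_neg]
        rfl
      rw [h4, hβd, hβd, hβd, hβb] at h3
      linarith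
    apply h 3 Nat.prime_three (by norm_num)
    by_cases hz : ∃ v₀, β v₀ v₀ % 3 = 1
    · obtain ⟨v₀, hv₀⟩ := hz
      refine pow_dvd_hodgeDet b Nat.prime_three 1 (by norm_num) (fun i => β v₀ (b i))
        fun i j => ?_
      -- `β w w = β v₀ w ^ 2`
      have key : ∀ w, (3 : ℤ) ∣ β w w - β v₀ w ^ 2 := by
        intro w
        have e1 := hpol v₀ w
        have e2 := hpol' v₀ w
        have e3 := hmod (v₀ + w)
        have e4 := hmod (v₀ - w)
        have e5 := hmod w
        have e6 : (β v₀ w % 3 = 0 ∧ β v₀ w ^ 2 % 3 = 0) ∨ (β v₀ w % 3 = 1 ∧ β v₀ w ^ 2 % 3 = 1) ∨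
            (β v₀ w % 3 = 2 ∧ β v₀ w ^ 2 % 3 = 1) := by
          rcases (by omega : β v₀ w % 3 = 0 ∨ β v₀ w % 3 = 1 ∨ β v₀ w % 3 = 2) with h | h | h <;>
            simp [pow_two, Int.mul_emod, h]
        omega
      have hlin : ∀ v w, β v₀ (v + w) = β v₀ v + β v₀ w := by
        intro v w
        have e1 : bl H v₀ ((v + w : H.hodge) : Fin 23 → ℤ) = bl H v₀ v + bl H v₀ w := by
          have h4 : ((v + w : H.hodge) : Fin 23 → ℤ) = (v : Fin 23 → ℤ) + w := rfl
          rw [h4]
          simp only [bl, ip_add_right]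
          ring
        rw [hβb, hβb, hβb] at e1
        linarith
      have k1 := key (b i)
      have k2 := key (b j)
      have k3 := key (b i + b j)
      rw [hpol, hlin] at k3
      have k4 : (3 : ℤ) ∣ 2 * (β (b i) (b j) - β v₀ (b i) * β v₀ (b j)) := by
        have e1 : 2 * (β (b i) (b j) - β v₀ (b i) * β v₀ (b j)) =
            (β (b i) (b i) + 2 * β (b i) (b j) + β (b j) (b j) -
              (β v₀ (b i) + β v₀ (b j)) ^ 2) - (β (b i) (b i) - β v₀ (b i) ^ 2) -
                (β (b j) (b j) - β v₀ (b j) ^ 2) := by ring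
        rw [e1]
        exact dvd_sub (dvd_sub k3 k1) k2
      have k5 : (3 : ℤ) ∣ β (b i) (b j) - β v₀ (b i) * β v₀ (b j) := by omega
      have e2 : 1 * H.ip (b i) (b j) - β v₀ (b i) * β v₀ (b j) =
          (β (b i) (b j) - β v₀ (b i) * β v₀ (b j)) + 3 * (c (b i) * c (b j)) := by
        simp only [β]
        ring
      push_cast
      rw [e2]
      exact dvd_add k5 (Dvd.intro _ rfl)
    · push Not at hz
      have hzero : ∀ v, (3 : ℤ) ∣ β v v := by
        intro v
        have := hmod v
        have := hz v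
        omega
      refine pow_dvd_hodgeDet b Nat.prime_three 1 (by norm_num) (fun _ => 0) fun i j => ?_
      have k1 := hzero (b i)
      have k2 := hzero (b j)
      have k3 := hzero (b i + b j)
      rw [hpol] at k3
      have k5 : (3 : ℤ) ∣ β (b i) (b j) := by omega
      have e2 : 1 * H.ip (b i) (b j) - 0 * 0 = β (b i) (b j) + 3 * (c (b i) * c (b j)) := by
        simp only [β]
        ring
      have e3 : (3 : ℤ) ∣ 1 * H.ip (b i) (b j) - 0 * 0 := by
        rw [e2]
        exact dvd_add k5 (Dvd.intro _ rfl)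
      exact_mod_cast e3
  · -- the other primes
    have hne1 : p % 3 ≠ 1 := by
      intro h1
      refine hcon H.h hH.h_hodge ⟨fun h2 => ?_, fun h2 => absurd h2 h3, fun _ h2 => ?_⟩
      · rw [h2] at h1
        norm_num at h1
      · omega
    have hp2 : p % 3 = 2 := by
      have h0 : p % 3 ≠ 0 := by
        intro h0
        exact h3 ((Nat.prime_dvd_prime_iff_eq Nat.prime_three hp).1
          (Nat.dvd_of_mod_eq_zero h0)).symm
      omega
    have hbl : ∀ v w : H.hodge, (p : ℤ) ∣ bl H v w := by
      intro v w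
      have e1 := hadd v w
      have hvw : H.IsHodge ((v : Fin 23 → ℤ) + w) := H.isHodge_add v.2 w.2
      by_cases h2 : p = 2
      · subst h2
        have h4 : ∀ v, H.IsHodge v → (4 : ℤ) ∣ H.disc v := by
          intro v hv
          by_contra h5
          exact hcon v hv ⟨fun _ => h5, fun h6 => absurd h6 h3, fun h6 => absurd rfl h6⟩
        have k1 := h4 v v.2
        have k2 := h4 w w.2
        have k3 := h4 _ hvw
        push_cast
        omega
      · have h4 : ∀ v, H.IsHodge v → (p : ℤ) ∣ H.disc v := by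
          intro v hv
          by_contra h5
          exact hcon v hv ⟨fun h6 => absurd h6 h2, fun h6 => absurd h6 h3, fun _ _ => h5⟩
        have k1 := h4 v v.2
        have k2 := h4 w w.2
        have k3 := h4 _ hvw
        have k4 : (p : ℤ) ∣ 2 * bl H v w := by
          have e2 : 2 * bl H v w = H.disc ((v : Fin 23 → ℤ) + w) - H.disc v - H.disc w := by
            rw [e1]; ring
          rw [e2]
          exact dvd_sub (dvd_sub k3 k1) k2
        refine (hpp.dvd_or_dvd k4).resolve_left fun h5 => h2 ?_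
        exact (Nat.prime_dvd_prime_iff_eq hp Nat.prime_two).1 (by exact_mod_cast h5)
    refine h p hp hne1 (pow_dvd_hodgeDet b hp 3 (fun h5 => h3 ?_) (fun i => H.ip H.h (b i))
      fun i j => hbl (b i) (b j))
    exact (Nat.prime_dvd_prime_iff_eq hp Nat.prime_three).1 (by exact_mod_cast h5)

/-- **The discriminant criterion.** -/
theorem infinitely_many_of_det (hH : H.IsCohomology) (hr : 3 ≤ r)
    (h : ∀ p : ℕ, p.Prime → p % 3 ≠ 1 → ¬ (p : ℤ) ^ (r - 1) ∣ hodgeDet H b) :
    InfinitelyManyK3 H := by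
  have hrank : 3 ≤ H.rank := by
    rw [rank_eq, finrank_eq_card_basis b, Fintype.card_fin]
    exact hr
  exact infinitely_many hH Web.weber hrank (locallyAdmissible_of_det b hH h)

end Pool.Agent.R907.Cub
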