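import Pool.Agent.R907.Cub.LG

/-!
# Integral points on affine quadrics with an isotropic vector

Let `B` be a symmetric bilinear form on an abelian group `L`, with an isotropic vector `e`, a vector
`f` with `B f e ≠ 0` and two orthogonal anisotropic vectors `u₁`, `u₂` which are orthogonal to `e`. Let
`t ≠ 0`. If the congruences `B x x = t mod m` have solutions `x ≡ x₀ mod N` for all `m`, then the
equation `B x x = t` has a solution `x ≡ x₀ mod N`.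
-/

set_option autoImplicit false

namespace Pool.Agent.R907.Cub.Strong

variable {L : Type*} [AddCommGroup L] (B : L →ₗ[ℤ] L →ₗ[ℤ] ℤ)

/-- Changing a local solution such that it is not almost orthogonal to `e`. -/
lemma rotate (hB : ∀ x y, B x y = B y x) {e f : L} (x₀ : L) {t N ρ : ℤ} (hρ : N ∣ ρ)
    {q : ℕ} (hq : q.Prime) (hqρ : (q : ℤ) ∣ ρ) {k₀ K : ℕ} (hK : k₀ ≤ K)
    (hk₀ : ¬ (q : ℤ) ^ k₀ ∣ 2 * t ^ 2 * ρ * B f e)
    (hloc : ∃ z, (q : ℤ) ^ K ∣ B (x₀ + N • z) (x₀ + N • z) - t) :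
    ∃ z, (q : ℤ) ^ K ∣ B (x₀ + N • z) (x₀ + N • z) - t ∧ ¬ (q : ℤ) ^ k₀ ∣ B (x₀ + N • z) e := by
  obtain ⟨z, hz⟩ := hloc
  by_cases h1 : (q : ℤ) ^ k₀ ∣ B (x₀ + N • z) e
  swap
  · exact ⟨z, hz, h1⟩
  obtain ⟨y, hy⟩ : ∃ y, y = x₀ + N • z := ⟨_, rfl⟩
  rw [← hy] at hz h1
  obtain ⟨b, hb⟩ : ∃ b, b = B y f := ⟨_, rfl⟩
  obtain ⟨f', hf'⟩ : ∃ f', f' = t • f - b • y := ⟨_, rfl⟩
  obtain ⟨φ, hφ⟩ : ∃ φ, φ = B f' f' := ⟨_, rfl⟩
  have hqp : Prime (q : ℤ) := Nat.prime_iff_prime_int.1 hq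
  have hcop : IsCoprime (1 + φ * t * ρ ^ 2) ((q : ℤ) ^ K) := by
    apply IsCoprime.pow_right
    obtain ⟨c, hc⟩ := hqρ
    refine ⟨1, -(φ * t * c * ρ), ?_⟩
    rw [hc]
    ring
  obtain ⟨u, w, huw⟩ := hcop
  obtain ⟨ρ', hρ'⟩ := hρ
  obtain ⟨A, hA⟩ : ∃ A, A = 2 * t * ρ * u := ⟨_, rfl⟩
  obtain ⟨D, hD⟩ : ∃ D, D = B y y - t := ⟨_, rfl⟩
  have hyf' : B y f' = -(b * D) := by
    rw [hf', map_sub, map_smul, map_smul, smul_eq_mul, smul_eq_mul, ← hb, hD]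
    ring
  have hf'y : B f' y = -(b * D) := by rw [hB, hyf']
  have hy' : y + A • (f' - (φ * ρ) • y) =
      x₀ + N • (z + (2 * t * ρ' * u) • (f' - (φ * ρ) • y)) := by
    rw [hA, hρ']
    nth_rewrite 1 [hy]
    module
  refine ⟨z + (2 * t * ρ' * u) • (f' - (φ * ρ) • y), ?_, ?_⟩
  · rw [← hy']
    have h2 : B (y + A • (f' - (φ * ρ) • y)) (y + A • (f' - (φ * ρ) • y)) - t =
        D * (1 - 2 * A * b - 2 * A * φ * ρ + A ^ 2 * (2 * φ * ρ * b + φ ^ 2 * ρ ^ 2)) -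
          2 * A * φ * ρ * t * (w * (q : ℤ) ^ K) := by
      simp only [map_add, map_sub, map_smul, LinearMap.add_apply, LinearMap.sub_apply,
        LinearMap.smul_apply, smul_eq_mul, hyf', hf'y, ← hφ]
      have h3 : B y y = t + D := by rw [hD]; ring
      rw [h3]
      have h4 : u * (1 + φ * t * ρ ^ 2) = 1 - w * (q : ℤ) ^ K := by linarith
      have h5 : A * A * (φ * (1 + φ * t * ρ ^ 2)) =
          A * φ * (2 * t * ρ) * (1 - w * (q : ℤ) ^ K) := by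
        rw [← h4]
        nth_rewrite 2 [hA]
        ring
      linear_combination h5
    rw [h2]
    rw [hD]
    exact dvd_sub (hz.mul_right _) ((dvd_mul_left _ _).mul_left _)
  · rw [← hy']
    have h2 : B (y + A • (f' - (φ * ρ) • y)) e =
        B y e * (1 - A * b - A * φ * ρ) + u * (2 * t ^ 2 * ρ * B f e) := by
      simp only [hf', map_add, map_sub, map_smul, LinearMap.add_apply, LinearMap.sub_apply,
        LinearMap.smul_apply, smul_eq_mul]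
      rw [hA]
      ring
    rw [h2]
    intro h3
    have h4 : (q : ℤ) ^ k₀ ∣ u * (2 * t ^ 2 * ρ * B f e) :=
      (Int.dvd_add_right (h1.mul_right _)).1 h3
    apply hk₀
    have hcop : IsCoprime ((q : ℤ) ^ k₀) u := by
      apply IsCoprime.pow_left
      rcases Nat.eq_zero_or_pos K with h0 | h0
      · exfalso
        apply hk₀
        have : k₀ = 0 := by omega
        rw [this, pow_zero]
        exact one_dvd _
      · refine ⟨w * (q : ℤ) ^ (K - 1), 1 + φ * t * ρ ^ 2, ?_⟩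
        have : (q : ℤ) ^ K = (q : ℤ) ^ (K - 1) * q := by
          rw [← pow_succ]
          congr 1
          omega
        rw [this] at huw
        linarith
    exact hcop.dvd_of_dvd_mul_left h4

/-- Solutions modulo a prime number. -/
lemma mod_prime {p : ℕ} (hp : p.Prime) (hp2 : p ≠ 2) {a b c d r : ℤ} (ha : ¬ (p : ℤ) ∣ a)
    (hc : ¬ (p : ℤ) ∣ c) : ∃ x y : ℤ, (p : ℤ) ∣ a * x ^ 2 + b * x + (c * y ^ 2 + d * y) + r := by
  have : Fact p.Prime := ⟨hp⟩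
  have ha' : (a : ZMod p) ≠ 0 := fun h => ha ((ZMod.intCast_zmod_eq_zero_iff_dvd a p).1 h)
  have hc' : (c : ZMod p) ≠ 0 := fun h => hc ((ZMod.intCast_zmod_eq_zero_iff_dvd c p).1 h)
  obtain ⟨x, y, hxy⟩ := FiniteField.exists_root_sum_quadratic
    (f := Polynomial.C (a : ZMod p) * Polynomial.X ^ 2 + Polynomial.C (b : ZMod p) * Polynomial.X +
      Polynomial.C (r : ZMod p))
    (g := Polynomial.C (c : ZMod p) * Polynomial.X ^ 2 + Polynomial.C (d : ZMod p) * Polynomial.X +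
      Polynomial.C 0)
    (Polynomial.degree_quadratic ha') (Polynomial.degree_quadratic hc') (by
      rw [ZMod.card p]
      exact hp.mod_two_eq_one_iff_ne_two.2 hp2)
  refine ⟨x.val, y.val, ?_⟩
  rw [← ZMod.intCast_zmod_eq_zero_iff_dvd]
  simp only [Polynomial.eval_add, Polynomial.eval_mul, Polynomial.eval_C, Polynomial.eval_pow,
    Polynomial.eval_X] at hxy
  push_cast
  rw [ZMod.natCast_zmod_val, ZMod.natCast_zmod_val]
  linear_combination hxy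

/-- **Integral points on affine quadrics with an isotropic vector.** -/
theorem strong (hB : ∀ x y, B x y = B y x) {e f u₁ u₂ : L} (he : B e e = 0) (hf : B f e ≠ 0)
    (h1e : B u₁ e = 0) (h2e : B u₂ e = 0) (h12 : B u₁ u₂ = 0) (h11 : B u₁ u₁ ≠ 0)
    (h22 : B u₂ u₂ ≠ 0) {t N : ℤ} (ht : t ≠ 0) (hN : N ≠ 0) (x₀ : L)
    (hloc : ∀ m : ℤ, m ≠ 0 → ∃ z, m ∣ B (x₀ + N • z) (x₀ + N • z) - t) :
    ∃ z, B (x₀ + N • z) (x₀ + N • z) = t := by
  classical
  obtain ⟨G, hG⟩ : ∃ G, G = B f e := ⟨_, rfl⟩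
  have hG0 : G ≠ 0 := by rw [hG]; exact hf
  obtain ⟨P, hP⟩ : ∃ P : ℤ, P = 2 * N * G * t := ⟨_, rfl⟩
  have hP0 : P ≠ 0 := by
    rw [hP]
    exact mul_ne_zero (mul_ne_zero (mul_ne_zero two_ne_zero hN) hG0) ht
  obtain ⟨W, hW⟩ : ∃ W : ℤ, W = 2 * t ^ 2 * P * G := ⟨_, rfl⟩
  have hW0 : W ≠ 0 := by
    rw [hW]
    exact mul_ne_zero (mul_ne_zero (mul_ne_zero two_ne_zero (pow_ne_zero 2 ht)) hP0) hG0
  obtain ⟨R, hR⟩ : ∃ R : ℤ, R = N * (2 * W) := ⟨_, rfl⟩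
  have hR0 : R ≠ 0 := by
    rw [hR]
    exact mul_ne_zero hN (mul_ne_zero two_ne_zero hW0)
  have hNP : N ∣ P := ⟨2 * G * t, by rw [hP]; ring⟩
  have hPW : ∀ q : ℕ, q.Prime → (q : ℤ) ∣ W → (q : ℤ) ∣ P := by
    intro q hq h
    have hqp : Prime (q : ℤ) := Nat.prime_iff_prime_int.1 hq
    rw [hW] at h
    rcases hqp.dvd_or_dvd h with h | h
    · rcases hqp.dvd_or_dvd h with h | h
      · rcases hqp.dvd_or_dvd h with h | h
        · rw [hP]
          exact ((h.mul_right _).mul_right _).mul_right _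
        · rw [hP]
          exact (hqp.dvd_of_dvd_pow h).mul_left _
      · exact h
    · rw [hP]
      exact (h.mul_left _).mul_right _
  have hRW : ∀ q : ℕ, q.Prime → (q : ℤ) ∣ R → (q : ℤ) ∣ W := by
    intro q hq h
    have hqp : Prime (q : ℤ) := Nat.prime_iff_prime_int.1 hq
    have h2W : (2 : ℤ) ∣ W := ⟨t ^ 2 * P * G, by rw [hW]; ring⟩
    have hNW : N ∣ W := hNP.trans ⟨2 * t ^ 2 * G, by rw [hW]; ring⟩
    rw [hR] at h
    rcases hqp.dvd_or_dvd h with h | h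
    · exact h.trans hNW
    · rcases hqp.dvd_or_dvd h with h | h
      · exact h.trans h2W
      · exact h
  let k₀ : ℕ → ℕ := fun q => W.natAbs.factorization q + 1
  have hk₀ : ∀ q : ℕ, q.Prime → ¬ (q : ℤ) ^ (k₀ q) ∣ W := by
    intro q hq h
    have h1 : q ^ (k₀ q) ∣ W.natAbs := by
      rw [← Int.natCast_dvd]
      exact_mod_cast h
    have h2 := (hq.pow_dvd_iff_le_factorization (Int.natAbs_ne_zero.2 hW0)).1 h1
    simp only [k₀] at h2
    omega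
  let K : ℕ → ℕ := fun q => R.natAbs.factorization q + k₀ q
  have hlocal : ∀ q : ℕ, q.Prime → (q : ℤ) ∣ P → ∃ z,
      (q : ℤ) ^ (K q) ∣ B (x₀ + N • z) (x₀ + N • z) - t ∧
        ¬ (q : ℤ) ^ (k₀ q) ∣ B (x₀ + N • z) e := by
    intro q hq hqP
    refine rotate B hB (f := f) x₀ hNP hq hqP (Nat.le_add_left _ _) ?_ (hloc _ ?_)
    · have h := hk₀ q hq
      rw [hW, hG] at h
      exact h
    · exact pow_ne_zero _ (by exact_mod_cast hq.ne_zero)
  choose Z hZ1 hZ2 using hlocal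
  let V : ℕ → L := fun q => if h : q.Prime ∧ (q : ℤ) ∣ P then Z q h.1 h.2 else 0
  have hcop : ∀ i ∈ W.natAbs.primeFactors, ∀ j ∈ W.natAbs.primeFactors, i ≠ j →
      IsCoprime ((i : ℤ) ^ (K i)) ((j : ℤ) ^ (K j)) := by
    intro i hi j hj hij
    exact IsCoprime.pow (Nat.isCoprime_iff_coprime.2
      ((Nat.coprime_primes (Nat.prime_of_mem_primeFactors hi)
        (Nat.prime_of_mem_primeFactors hj)).2 hij))
  obtain ⟨w, hw⟩ := crt W.natAbs.primeFactors (fun q => (q : ℤ) ^ (K q)) V hcop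
  obtain ⟨y₀, hy₀⟩ : ∃ y₀, y₀ = x₀ + N • w := ⟨_, rfl⟩
  have hq : ∀ q : ℕ, q.Prime → (q : ℤ) ∣ W → (q : ℤ) ^ (K q) ∣ B y₀ y₀ - t ∧
      ¬ (q : ℤ) ^ (k₀ q) ∣ B y₀ e := by
    intro q hq hqW
    have hqT : q ∈ W.natAbs.primeFactors := Nat.mem_primeFactors.2
      ⟨hq, Int.natCast_dvd.1 hqW, Int.natAbs_ne_zero.2 hW0⟩
    obtain ⟨z, hz⟩ := hw q hqT
    have hqP := hPW q hq hqW
    have hV : V q = Z q hq hqP := by
      simp only [V]
      rw [dif_pos ⟨hq, hqP⟩]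
    rw [hV] at hz
    have e1 : y₀ = (x₀ + N • Z q hq hqP) + (q : ℤ) ^ (K q) • (N • z) := by
      rw [hy₀, hz]
      module
    have hz1 := hZ1 q hq hqP
    have hz2 := hZ2 q hq hqP
    obtain ⟨y', hy'⟩ : ∃ y', y' = x₀ + N • Z q hq hqP := ⟨_, rfl⟩
    rw [← hy'] at e1 hz1 hz2
    constructor
    · have e2 : B y₀ y₀ - t = (B y' y' - t) + (q : ℤ) ^ (K q) *
          (2 * N * B y' z + (q : ℤ) ^ (K q) * N ^ 2 * B z z) := by
        rw [e1]
        simp only [map_add, map_smul, LinearMap.add_apply, LinearMap.smul_apply, smul_eq_mul,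
          hB z y']
        ring
      rw [e2]
      exact dvd_add hz1 (Dvd.intro _ rfl)
    · intro h
      apply hz2
      have e2 : B y₀ e = B y' e + (q : ℤ) ^ (K q) * (N * B z e) := by
        rw [e1]
        simp only [map_add, map_smul, LinearMap.add_apply, LinearMap.smul_apply, smul_eq_mul]
      rw [e2] at h
      refine (Int.dvd_add_left ?_).1 h
      exact (pow_dvd_pow _ (Nat.le_add_left _ _)).mul_right _
  -- divisibility by `R`
  have hRd : R ∣ B y₀ y₀ - t := by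
    have h2 : ((R.natAbs : ℕ) : ℤ) =
        ∏ p ∈ R.natAbs.primeFactors, (p : ℤ) ^ (R.natAbs.factorization p) := by
      conv_lhs => rw [← Nat.prod_factorization_pow_eq_self (Int.natAbs_ne_zero.2 hR0)]
      rw [Finsupp.prod, Nat.support_factorization]
      push_cast
      rfl
    rw [← Int.natAbs_dvd, h2]
    refine Finset.prod_dvd_of_coprime ?_ ?_
    · intro i hi j hj hij
      exact IsCoprime.pow (Nat.isCoprime_iff_coprime.2
        ((Nat.coprime_primes (Nat.prime_of_mem_primeFactors hi)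
          (Nat.prime_of_mem_primeFactors hj)).2 hij))
    · intro q hqR
      obtain ⟨h3, h4, -⟩ := Nat.mem_primeFactors.1 hqR
      have h5 := (hq q h3 (hRW q h3 (Int.natCast_dvd.2 h4))).1
      exact (pow_dvd_pow _ (Nat.le_add_right _ _)).trans h5
  -- the greatest common divisor
  have hRG : R * G ≠ 0 := mul_ne_zero hR0 hG0
  obtain ⟨s, hs⟩ : ∃ s : ℕ, s = Int.gcd (B y₀ e) (R * G) := ⟨_, rfl⟩
  have hs0 : 0 < s := by
    rw [hs]
    exact Int.gcd_pos_of_ne_zero_right _ hRG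
  have hsW : (s : ℤ) ∣ W := by
    rw [Int.natCast_dvd, Nat.dvd_iff_prime_pow_dvd_dvd]
    intro q k hq' hqk
    have h1 : ((q ^ k : ℕ) : ℤ) ∣ B y₀ e :=
      (Int.natCast_dvd_natCast.2 hqk).trans (by rw [hs]; exact Int.gcd_dvd_left _ _)
    have h2 : ((q ^ k : ℕ) : ℤ) ∣ R * G :=
      (Int.natCast_dvd_natCast.2 hqk).trans (by rw [hs]; exact Int.gcd_dvd_right _ _)
    rcases Nat.eq_zero_or_pos k with rfl | hk
    · rw [pow_zero]
      exact one_dvd _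
    have hqp : Prime (q : ℤ) := Nat.prime_iff_prime_int.1 hq'
    have h3 : (q : ℤ) ∣ W := by
      have h4 : (q : ℤ) ∣ R * G := (by
        have : (q : ℤ) ∣ ((q ^ k : ℕ) : ℤ) := by
          push_cast
          exact dvd_pow_self _ hk.ne'
        exact this.trans h2)
      rcases hqp.dvd_or_dvd h4 with h | h
      · exact hRW q hq' h
      · exact h.trans ⟨2 * t ^ 2 * P, by rw [hW]; ring⟩
    rw [hq'.pow_dvd_iff_le_factorization (Int.natAbs_ne_zero.2 hW0)]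
    by_contra hcon
    apply (hq q hq' h3).2
    refine (pow_dvd_pow (q : ℤ) (?_ : k₀ q ≤ k)).trans (by exact_mod_cast h1)
    simp only [k₀]
    omega
  obtain ⟨b', m', hgcd, hb', hm'⟩ := Int.exists_gcd_one (m := B y₀ e) (n := R * G)
    (by rw [← hs]; exact hs0)
  rw [← hs] at hb' hm'
  have hm'0 : m' ≠ 0 := by
    rintro rfl
    rw [zero_mul] at hm'
    exact hRG hm'
  have hbm : IsCoprime b' m' := Int.isCoprime_iff_gcd_eq_one.2 hgcd
  have : NeZero m'.natAbs := ⟨Int.natAbs_ne_zero.2 hm'0⟩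
  have hunit : IsUnit ((b' : ℤ) : ZMod m'.natAbs) := by
    rw [ZMod.coe_int_isUnit_iff_isCoprime]
    rw [Int.isCoprime_iff_gcd_eq_one, Int.gcd_comm] at hbm
    rw [Int.isCoprime_iff_gcd_eq_one, ← hbm]
    simp [Int.gcd, Int.natAbs_abs]
  obtain ⟨p, hpbig, hp, hpb⟩ := Nat.forall_exists_prime_gt_and_eq_mod hunit
    (2 * (R * B u₁ u₁ * B u₂ u₂).natAbs)
  obtain ⟨k, hk⟩ : ∃ k, (p : ℤ) = b' + m' * k := by
    have h1 : ((p : ℤ) : ZMod m'.natAbs) = ((b' : ℤ) : ZMod m'.natAbs) := by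
      rw [← hpb]
      simp
    have h2 := (ZMod.intCast_eq_intCast_iff_dvd_sub b' p m'.natAbs).1 h1.symm
    have h3 : m' ∣ (p : ℤ) - b' := Int.natAbs_dvd.1 h2
    obtain ⟨k, hk⟩ := h3
    exact ⟨k, by linarith⟩
  have hprod0 : R * B u₁ u₁ * B u₂ u₂ ≠ 0 := mul_ne_zero (mul_ne_zero hR0 h11) h22
  have hpbig1 : 1 ≤ (R * B u₁ u₁ * B u₂ u₂).natAbs := Int.natAbs_pos.2 hprod0
  have hpprod : ¬ (p : ℤ) ∣ R * B u₁ u₁ * B u₂ u₂ := by
    intro h
    have h1 := Nat.le_of_dvd hpbig1 (Int.natCast_dvd.1 h)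
    omega
  have hpR : ¬ (p : ℤ) ∣ R := fun h => hpprod ((h.mul_right _).mul_right _)
  have hp1 : ¬ (p : ℤ) ∣ B u₁ u₁ := fun h => hpprod ((h.mul_left _).mul_right _)
  have hp2 : ¬ (p : ℤ) ∣ B u₂ u₂ := fun h => hpprod (h.mul_left _)
  have hpp : Prime (p : ℤ) := Nat.prime_iff_prime_int.1 hp
  have hpodd : p ≠ 2 := by omega
  obtain ⟨y₁, hy₁⟩ : ∃ y₁, y₁ = y₀ + (R * k) • f := ⟨_, rfl⟩
  have hy₁e : B y₁ e = s * p := by
    rw [hy₁, map_add, map_smul, LinearMap.add_apply, LinearMap.smul_apply, smul_eq_mul, ← hG, hb',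
      hk]
    linear_combination k * hm'
  have hsq : ∀ c : ℤ, ¬ (p : ℤ) ∣ c → ¬ (p : ℤ) ∣ R ^ 2 * c := by
    intro c hc h
    rcases hpp.dvd_or_dvd h with h | h
    · exact hpR (hpp.dvd_of_dvd_pow h)
    · exact hc h
  obtain ⟨α, γ, hαγ⟩ := mod_prime hp hpodd (a := R ^ 2 * B u₁ u₁) (b := 2 * R * B y₁ u₁)
    (c := R ^ 2 * B u₂ u₂) (d := 2 * R * B y₁ u₂) (r := B y₁ y₁ - t) (hsq _ hp1) (hsq _ hp2)
  obtain ⟨v, hv⟩ : ∃ v, v = k • f + α • u₁ + γ • u₂ := ⟨_, rfl⟩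
  obtain ⟨y₂, hy₂⟩ : ∃ y₂, y₂ = y₁ + R • (α • u₁ + γ • u₂) := ⟨_, rfl⟩
  have hy₂' : y₂ = y₀ + R • v := by
    rw [hy₂, hy₁, hv]
    module
  have hy₂e : B y₂ e = s * p := by
    rw [hy₂]
    simp only [map_add, map_smul, LinearMap.add_apply, LinearMap.smul_apply, smul_eq_mul, h1e, h2e,
      hy₁e]
    ring
  have hd1 : R ∣ B y₂ y₂ - t := by
    have h3 : B y₂ y₂ - t = (B y₀ y₀ - t) + R * (2 * B y₀ v + R * B v v) := by
      rw [hy₂']
      simp only [map_add, map_smul, LinearMap.add_apply, LinearMap.smul_apply, smul_eq_mul,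
        hB v y₀]
      ring
    rw [h3]
    exact dvd_add hRd (Dvd.intro _ rfl)
  have hd2 : (p : ℤ) ∣ B y₂ y₂ - t := by
    have h3 : B y₂ y₂ - t = R ^ 2 * B u₁ u₁ * α ^ 2 + 2 * R * B y₁ u₁ * α +
        (R ^ 2 * B u₂ u₂ * γ ^ 2 + 2 * R * B y₁ u₂ * γ) + (B y₁ y₁ - t) := by
      rw [hy₂]
      have h21 : B u₂ u₁ = 0 := by rw [hB]; exact h12
      simp only [map_add, map_smul, LinearMap.add_apply, LinearMap.smul_apply, smul_eq_mul,
        hB u₁ y₁, hB u₂ y₁, h12, h21]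
      ring
    rw [h3]
    exact hαγ
  have hcopR : IsCoprime (p : ℤ) R := (Prime.coprime_iff_not_dvd hpp).2 hpR
  have hd3 : (p : ℤ) * R ∣ B y₂ y₂ - t := hcopR.mul_dvd hd2 hd1
  obtain ⟨W', hW'⟩ := hsW
  obtain ⟨τ, hτ⟩ := hd3
  refine ⟨w + (2 * W) • v - (τ * W') • e, ?_⟩
  have h3 : x₀ + N • (w + (2 * W) • v - (τ * W') • e) = y₂ - (N * τ * W') • e := by
    rw [hy₂', hy₀, hR]
    module
  rw [h3]
  simp only [map_sub, map_smul, LinearMap.sub_apply, LinearMap.smul_apply, smul_eq_mul, he, hy₂e,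
    hB e y₂]
  have h4 : B y₂ y₂ = t + p * R * τ := by linarith
  rw [h4, hR, hW']
  ring

end Pool.Agent.R907.Cub.Strong
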