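import Pool.Agent.R907.Cub.Hilb
import Pool.Agent.R907.Cub.Strong
import Pool.Agent.R847.QB.Meyer
import Pool.Agent.R847.QB.Mat
import Pool.Agent.R847.QB.Iso
import Pool.Agent.R847.QB.Dir

/-!
# Cubic fourfolds of rank at least five: Hilbert squares
-/

set_option autoImplicit false

namespace Pool.Agent.R907.Cub

open Pool.Agent.Y95.Q Pool.Agent.Y95.Q.H4 Module Matrix

variable {X : CubicFourfold} {H : H4 X}

/-- The form `v.w - (h.v) (h.w)` on the Hodge classes. -/
noncomputable def qB (H : H4 X) : H.hodge →ₗ[ℤ] H.hodge →ₗ[ℤ] ℤ :=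
  LinearMap.mk₂ ℤ (fun v w => H.ip v w - H.ip H.h v * H.ip H.h w)
    (fun v v' w => by
      change H.ip (v + v') w - H.ip H.h (v + v') * H.ip H.h w = _
      simp only [ip_add_left, ip_add_right]; ring)
    (fun c v w => by
      change H.ip (c • (v : Fin 23 → ℤ)) w - H.ip H.h (c • (v : Fin 23 → ℤ)) * H.ip H.h w = _
      simp only [ip_smul_left, ip_smul_right, smul_eq_mul]; ring)
    (fun v w w' => by
      change H.ip v (w + w') - H.ip H.h v * H.ip H.h (w + w') = _
      simp only [ip_add_right]; ring)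
    (fun c v w => by
      change H.ip v (c • (w : Fin 23 → ℤ)) - H.ip H.h v * H.ip H.h (c • (w : Fin 23 → ℤ)) = _
      simp only [ip_smul_right, smul_eq_mul]; ring)

lemma qB_apply (v w : H.hodge) : qB H v w = H.ip v w - H.ip H.h v * H.ip H.h w := rfl

/-- A common zero of three linear forms. -/
lemma exists_ker (hρ : 4 ≤ H.rank) (a b c : Fin 23 → ℤ) :
    ∃ u : H.hodge, u ≠ 0 ∧ H.ip a u = 0 ∧ H.ip b u = 0 ∧ H.ip c u = 0 := by
  rw [H.rank_eq] at hρ
  let lin : (Fin 23 → ℤ) → H.hodge →ₗ[ℤ] ℤ := fun a =>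
    { toFun := fun u => H.ip a u
      map_add' := fun u v => ip_add_right _ _ _ _
      map_smul' := fun k u => ip_smul_right _ _ _ _ }
  let φ : H.hodge →ₗ[ℤ] (Fin 3 → ℤ) := LinearMap.pi ![lin a, lin b, lin c]
  have h1 : LinearMap.ker φ ≠ ⊥ := by
    intro h0
    have h2 := LinearMap.finrank_le_finrank_of_injective (LinearMap.ker_eq_bot.1 h0)
    rw [finrank_fin_fun] at h2
    omega
  obtain ⟨u, hu, hu0⟩ := Submodule.exists_mem_ne_zero_of_ne_bot h1
  have h2 := LinearMap.mem_ker.1 hu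
  exact ⟨u, hu0, congrFun h2 0, congrFun h2 1, congrFun h2 2⟩

/-- **Hilbert squares**, if the form is isotropic. -/
theorem hilbClass_of_isotropic (hH : H.IsCohomology) (hρ : 4 ≤ H.rank) {e : Fin 23 → ℤ}
    (he : H.IsHodge e) (he0 : e ≠ 0) (hee : H.ip e e = H.ip H.h e ^ 2)
    (hL : LocallyAdmissible H) : HilbClass H := by
  let h' : H.hodge := ⟨H.h, hH.h_hodge⟩
  let e' : H.hodge := ⟨e, he⟩
  have hpos := hH.pos e he he0
  have hhe : H.ip H.h e ≠ 0 := by
    intro h0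
    rw [hee, h0] at hpos
    simp at hpos
  obtain ⟨u₁, hu₁, h1h, h1e, -⟩ := exists_ker hρ H.h e 0
  obtain ⟨u₂, hu₂, h2h, h2e, h21⟩ := exists_ker hρ H.h e u₁
  have hne : ∀ u : H.hodge, u ≠ 0 → H.ip H.h u = 0 → qB H u u ≠ 0 := by
    intro u hu huh
    rw [qB_apply, huh, mul_zero, sub_zero]
    exact (hH.pos u u.2 fun h0 => hu (Subtype.ext h0)).ne'
  have key : ∀ y : H.hodge, qB H (h' + (2 : ℤ) • y) (h' + (2 : ℤ) • y) = 2 + 4 * qy H y := by
    intro y
    rw [qB_apply]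
    have h1 : ((h' + (2 : ℤ) • y : H.hodge) : Fin 23 → ℤ) =
        H.h + (2 : ℤ) • (y : Fin 23 → ℤ) := rfl
    rw [h1]
    simp only [qy, ip_add_left, ip_add_right, ip_smul_left, ip_smul_right, hH.h_self,
      hH.comm (y : Fin 23 → ℤ) H.h]
    ring
  obtain ⟨y, hy⟩ := Strong.strong (qB H) (fun v w => by
      rw [qB_apply, qB_apply, hH.comm v w]
      ring) (e := e') (f := h') (u₁ := u₁) (u₂ := u₂) (by
      change H.ip e e - H.ip H.h e * H.ip H.h e = 0
      rw [hee]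
      ring) (by
      change H.ip H.h e - H.ip H.h H.h * H.ip H.h e ≠ 0
      rw [hH.h_self]
      intro h0
      apply hhe
      linarith) (by
      change H.ip u₁ e - H.ip H.h u₁ * H.ip H.h e = 0
      rw [hH.comm, h1e, h1h]
      ring) (by
      change H.ip u₂ e - H.ip H.h u₂ * H.ip H.h e = 0
      rw [hH.comm, h2e, h2h]
      ring) (by
      change H.ip u₁ u₂ - H.ip H.h u₁ * H.ip H.h u₂ = 0
      rw [h21, h2h]
      ring) (hne u₁ hu₁ h1h) (hne u₂ hu₂ h2h) (t := 2) (N := 2) two_ne_zero two_ne_zero h'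
    (fun m hm => by
      obtain ⟨y, hy⟩ := all_qy hH hL m hm
      refine ⟨y, ?_⟩
      rw [key]
      have h1 : 2 + 4 * qy H y - 2 = qy H y * 4 := by ring
      rw [h1]
      exact hy.mul_right _)
  rw [key] at hy
  refine ⟨y, y.2, ?_⟩
  have h1 : qy H y = 0 := by linarith
  rw [qy] at h1
  linarith

/-- **Isotropic vectors**, by the theorem of Meyer. -/
theorem exists_isotropic_class (hH : H.IsCohomology) (hρ : 5 ≤ H.rank) :
    ∃ e, H.IsHodge e ∧ e ≠ 0 ∧ H.ip e e = H.ip H.h e ^ 2 := by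
  classical
  let b := Module.finBasis ℤ H.hodge
  let h' : H.hodge := ⟨H.h, hH.h_hodge⟩
  obtain ⟨u, hu, huh, -, -⟩ := exists_ker (by omega : 4 ≤ H.rank) H.h 0 0
  rw [H.rank_eq] at hρ
  set A := qA H b with hA
  have hsymm : A.IsSymm := by
    ext i j
    rw [Matrix.transpose_apply, hA, qA, Matrix.of_apply, Matrix.of_apply, hH.comm (b j) (b i)]
    ring
  have hdet := qA_det b hH
  have hcast : ∀ (R : Type) [CommRing R] (c d : Fin (finrank ℤ H.hodge) → ℤ),
      (fun i => (c i : R)) ⬝ᵥ (A.map (Int.cast : ℤ → R)) *ᵥ (fun i => (d i : R)) =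
        ((c ⬝ᵥ A *ᵥ d : ℤ) : R) := by
    intro R _ c d
    simp [dotProduct, Matrix.mulVec]
  have hpos : 0 < H.ip u u := hH.pos u u.2 fun h0 => hu (Subtype.ext h0)
  have q11 : (b.repr h' : Fin _ → ℤ) ⬝ᵥ A *ᵥ (b.repr h' : Fin _ → ℤ) = -6 := by
    rw [qA_dot]
    change H.ip H.h H.h - H.ip H.h H.h * H.ip H.h H.h = -6
    rw [hH.h_self]
    norm_num
  have q12 : (b.repr h' : Fin _ → ℤ) ⬝ᵥ A *ᵥ (b.repr u : Fin _ → ℤ) = 0 := by
    rw [qA_dot]
    change H.ip H.h u - H.ip H.h H.h * H.ip H.h u = 0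
    rw [huh]
    norm_num
  have q21 : (b.repr u : Fin _ → ℤ) ⬝ᵥ A *ᵥ (b.repr h' : Fin _ → ℤ) = 0 := by
    rw [qA_dot]
    change H.ip u H.h - H.ip H.h u * H.ip H.h H.h = 0
    rw [hH.comm, huh]
    norm_num
  have q22 : (b.repr u : Fin _ → ℤ) ⬝ᵥ A *ᵥ (b.repr u : Fin _ → ℤ) = H.ip u u := by
    rw [qA_dot, huh]
    norm_num
  set α : ℝ := Real.sqrt (H.ip u u) with hα
  set β : ℝ := Real.sqrt 6 with hβ
  have hα2 : α ^ 2 = (H.ip u u : ℝ) := Real.sq_sqrt (by exact_mod_cast hpos.le)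
  have hβ2 : β ^ 2 = 6 := Real.sq_sqrt (by norm_num)
  have hα0 : α ≠ 0 := by
    intro h0
    rw [h0] at hα2
    have : (H.ip u u : ℝ) = 0 := by rw [← hα2]; norm_num
    have : H.ip u u = 0 := by exact_mod_cast this
    omega
  obtain ⟨w, hw0, hw⟩ := Pool.Agent.R847.QB.mat_
    (Pool.Agent.R847.QB.meyer Pool.Agent.R847.QB.iso_ Pool.Agent.R847.QB.dir_) _ hρ
    (A.map (Int.cast : ℤ → ℚ)) (by
      ext i j
      rw [Matrix.transpose_apply, Matrix.map_apply, Matrix.map_apply, hsymm.apply]) (by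
      have : (A.map (Int.cast : ℤ → ℚ)).det = ((A.det : ℤ) : ℚ) := by
        rw [Int.cast_det]
      rw [this]
      exact_mod_cast hdet)
    (by
      have hmm : (A.map (Int.cast : ℤ → ℚ)).map (algebraMap ℚ ℝ) = A.map (Int.cast : ℤ → ℝ) := by
        ext i j
        simp
      rw [hmm]
      set x : Fin (finrank ℤ H.hodge) → ℝ := fun i => ((b.repr h' i : ℤ) : ℝ) with hx
      set z : Fin (finrank ℤ H.hodge) → ℝ := fun i => ((b.repr u i : ℤ) : ℝ) with hz
      have r11 := hcast ℝ (b.repr h' : Fin _ → ℤ) (b.repr h' : Fin _ → ℤ)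
      have r12 := hcast ℝ (b.repr h' : Fin _ → ℤ) (b.repr u : Fin _ → ℤ)
      have r21 := hcast ℝ (b.repr u : Fin _ → ℤ) (b.repr h' : Fin _ → ℤ)
      have r22 := hcast ℝ (b.repr u : Fin _ → ℤ) (b.repr u : Fin _ → ℤ)
      rw [q11] at r11
      rw [q12] at r12
      rw [q21] at r21
      rw [q22] at r22
      push_cast at r11 r12 r21 r22
      refine ⟨α • x + β • z, fun h0 => ?_, ?_⟩
      · have h1 : x ⬝ᵥ (A.map (Int.cast : ℤ → ℝ)) *ᵥ (α • x + β • z) = 0 := by
          rw [h0]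
          simp
        rw [Matrix.mulVec_add, Matrix.mulVec_smul, Matrix.mulVec_smul, dotProduct_add,
          dotProduct_smul, dotProduct_smul, r11, r12] at h1
        simp only [smul_eq_mul, mul_zero, add_zero] at h1
        apply hα0
        linarith
      · rw [Matrix.mulVec_add, Matrix.mulVec_smul, Matrix.mulVec_smul, dotProduct_add,
          dotProduct_smul, dotProduct_smul, add_dotProduct, add_dotProduct, smul_dotProduct,
          smul_dotProduct, smul_dotProduct, smul_dotProduct, r11, r12, r21, r22]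
        simp only [smul_eq_mul]
        linear_combination (-6) * hα2 + (H.ip u u : ℝ) * hβ2)
  -- integral vector
  set D : ℕ := ∏ i, (w i).den with hD
  have hD0 : (D : ℚ) ≠ 0 := by
    rw [hD]
    push_cast
    exact Finset.prod_ne_zero_iff.2 fun i _ => by exact_mod_cast (w i).den_ne_zero
  have hc : ∀ i, ∃ c : ℤ, (c : ℚ) = D * w i := by
    intro i
    obtain ⟨k, hk⟩ := Finset.dvd_prod_of_mem (fun i => (w i).den) (Finset.mem_univ i)
    refine ⟨k * (w i).num, ?_⟩
    have h1 : (D : ℚ) = (w i).den * k := by rw [hD, hk]; push_cast; ring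
    have h2 : (w i) * (w i).den = (w i).num := Rat.mul_den_eq_num (w i)
    rw [h1]
    push_cast
    rw [← h2]
    ring
  choose c hc using hc
  have hcw : (fun i => (c i : ℚ)) = (D : ℚ) • w := by
    funext i
    rw [hc i]
    rfl
  have h1 := hcast ℚ c c
  rw [hcw, Matrix.mulVec_smul, dotProduct_smul, smul_dotProduct, hw] at h1
  simp only [smul_zero] at h1
  have h2 : c ⬝ᵥ A *ᵥ c = 0 := by exact_mod_cast h1.symm
  obtain ⟨e, he⟩ := exists_repr b c
  rw [← he, qA_dot] at h2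
  refine ⟨e, e.2, fun h0 => hw0 ?_, by linarith⟩
  have h3 : e = 0 := Subtype.ext h0
  rw [h3, map_zero] at he
  have h4 : (D : ℚ) • w = 0 := by
    rw [← hcw, ← he]
    funext i
    simp
  exact (smul_eq_zero.1 h4).resolve_left hD0

/-- **Four equivalent conditions in rank at least five.** -/
theorem tfae_hilb_five (hH : H.IsCohomology) (hρ : 5 ≤ H.rank ∨ 4 ≤ H.rank ∧
    ∃ v a, H.IsHodge v ∧ a ≠ 0 ∧ H.disc v = 2 * a ^ 2) :
    List.TFAE [H.HasK3, LocallyAdmissible H, HasHilb H, HilbClass H] := by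
  obtain ⟨hρ4, e, he, he0, hee⟩ : 4 ≤ H.rank ∧
      ∃ e, H.IsHodge e ∧ e ≠ 0 ∧ H.ip e e = H.ip H.h e ^ 2 := by
    rcases hρ with h | ⟨h4, v, a, hv, ha, hva⟩
    · exact ⟨by omega, exists_isotropic_class hH h⟩
    · refine ⟨h4, (a - H.ip H.h v) • H.h + (3 : ℤ) • v,
        H.isHodge_add (H.isHodge_smul _ hH.h_hodge) (H.isHodge_smul _ hv), fun h0 => ?_, ?_⟩
      · have h1 := congrArg (H.ip H.h) h0
        rw [ip_add_right, ip_smul_right, ip_smul_right, hH.h_self, ip_zero_right] at h1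
        apply ha
        linarith
      · rw [disc] at hva
        simp only [ip_add_left, ip_add_right, ip_smul_left, ip_smul_right, hH.h_self,
          hH.comm v H.h]
        linear_combination 3 * hva
  tfae_have 1 → 2 := by
    rintro ⟨v, hv, -, hadm⟩ p hp
    exact ⟨v, hv, admissibleAt_of_admissible (disc_even hH v) hadm hp⟩
  tfae_have 2 → 4 := hilbClass_of_isotropic hH hρ4 he he0 hee
  tfae_have 4 → 3 := hasHilb_of_hilbClass hH
  tfae_have 3 → 1 := hasK3_of_hasHilb hH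
  tfae_finish

end Pool.Agent.R907.Cub
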