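import Pool.Agent.R907.Cub.Hilb

/-!
# Cubic fourfolds of rank three with infinitely many associated K3 surfaces and no Hilbert square
-/

set_option autoImplicit false

namespace Pool.Agent.R907.Cub

open Pool.Agent.Y95.Q Pool.Agent.Y95.Q.H4

variable {X : CubicFourfold} {H : H4 X}

/-- Large numbers `B = 3 s y` with `B ^ 2 - 1 = 2 t x`. -/
lemma exists_large {s t : ℤ} (hs : Odd s) (ht : ¬ 3 ∣ t) (hst : IsCoprime s t) (N : ℤ) :
    ∃ B x y : ℤ, N < B ∧ 0 < B ∧ 3 * s * y = B ∧ 2 * t * x = B ^ 2 - 1 := by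
  have hs0 : s ≠ 0 := by
    rintro rfl
    simp at hs
  have ht0 : t ≠ 0 := by
    rintro rfl
    simp at ht
  have hcop : IsCoprime (3 * s) (2 * t) := by
    have h32 : IsCoprime (3 : ℤ) 2 := by norm_num
    have h3t : IsCoprime (3 : ℤ) t := by
      have := (Int.prime_three.coprime_iff_not_dvd).2 ht
      exact this
    have hs2 : IsCoprime s 2 := by
      obtain ⟨k, hk⟩ := hs
      exact ⟨1, -k, by rw [hk]; ring⟩
    exact IsCoprime.mul_left (h32.mul_right h3t) (hs2.mul_right hst)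
  obtain ⟨k, l, hkl⟩ := hcop
  have h1 : 1 ≤ s ^ 2 * t ^ 2 := by
    have : 0 < s ^ 2 * t ^ 2 := by positivity
    omega
  set J : ℤ := |N| + 2 * |t * l| + 2 with hJ
  have hJ0 : 0 ≤ J := by positivity
  refine ⟨1 - 2 * t * l + 6 * (s ^ 2 * t ^ 2) * J,
    (3 * s * (s * t * J) - l) * (1 - 2 * t * l + 6 * (s ^ 2 * t ^ 2) * J + 1),
    k + 2 * t * (s * t * J), ?_, ?_, ?_, ?_⟩
  · have h2 : J ≤ (s ^ 2 * t ^ 2) * J := by nlinarith
    have h3 := le_abs_self N
    have h4 := le_abs_self (t * l)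
    have h5 : 2 * t * l = 2 * (t * l) := by ring
    have h6 : 6 * (s ^ 2 * t ^ 2) * J = 6 * ((s ^ 2 * t ^ 2) * J) := by ring
    rw [h5, h6]
    have h7 := abs_nonneg N
    have h8 := abs_nonneg (t * l)
    linarith
  · have h2 : J ≤ (s ^ 2 * t ^ 2) * J := by nlinarith
    have h3 := le_abs_self N
    have h4 := le_abs_self (t * l)
    have h5 : 2 * t * l = 2 * (t * l) := by ring
    have h6 : 6 * (s ^ 2 * t ^ 2) * J = 6 * ((s ^ 2 * t ^ 2) * J) := by ring
    rw [h5, h6]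
    have h7 := abs_nonneg N
    have h8 := abs_nonneg (t * l)
    linarith
  · linear_combination hkl
  · ring

/-- The number `B ^ 4 - B ^ 2 + 1` for `B` divisible by three. -/
lemma admissible_six {B : ℤ} (h3 : 3 ∣ B) (h6 : 6 < 6 * (B ^ 4 - B ^ 2 + 1)) :
    Admissible (6 * (B ^ 4 - B ^ 2 + 1)) := by
  have h1 : (1 : ℤ) ^ 2 * (2 * (B ^ 4 - B ^ 2 + 1)) =
      2 * (-B ^ 2) ^ 2 + 2 * (-B ^ 2) + 2 := by ring
  have hodd : (B ^ 4 - B ^ 2 + 1) % 2 = 1 := by
    obtain ⟨m, hm⟩ := Int.even_mul_pred_self (B ^ 2)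
    have : B ^ 4 - B ^ 2 = B ^ 2 * (B ^ 2 - 1) := by ring
    omega
  have hthree : (B ^ 4 - B ^ 2 + 1) % 3 = 1 := by
    obtain ⟨c, rfl⟩ := h3
    have : (3 * c) ^ 4 - (3 * c) ^ 2 + 1 = 3 * (27 * c ^ 4 - 3 * c ^ 2) + 1 := by ring
    omega
  refine ⟨h6, by omega, by omega, fun p hp hp2 hd => ?_⟩
  by_cases hp3 : p = 3
  · omega
  refine prime_mod h1 hp hp2 ?_
  have h4 : (p : ℤ) ∣ 3 * (2 * (B ^ 4 - B ^ 2 + 1)) := by
    have : 3 * (2 * (B ^ 4 - B ^ 2 + 1)) = 6 * (B ^ 4 - B ^ 2 + 1) := by ring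
    rwa [this]
  refine ((Nat.prime_iff_prime_int.1 hp).dvd_or_dvd h4).resolve_left fun h => hp3 ?_
  exact (Nat.prime_dvd_prime_iff_eq hp Nat.prime_three).1 (by exact_mod_cast h)

/-- **Infinitely many associated K3 surfaces.** -/
theorem three_infinitely (hH : H.IsCohomology) {s t : ℤ}
    {v w : Fin 23 → ℤ} (hs : Odd s) (ht : ¬ 3 ∣ t) (hst : IsCoprime s t) (hv : H.IsHodge v)
    (hw : H.IsHodge w) (hhv : H.ip H.h v = 0) (hhw : H.ip H.h w = 0) (hvw : H.ip v w = 0)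
    (hvv : H.ip v v = 8 * t ^ 2) (hww : H.ip w w = 18 * s ^ 2)
    (hall : ∀ x, H.IsHodge x → ∃ a b c : ℤ, x = a • H.h + b • v + c • w) :
    InfinitelyManyK3 H := by
  intro N
  have hvh : H.ip v H.h = 0 := by rw [hH.comm]; exact hhv
  have hwh : H.ip w H.h = 0 := by rw [hH.comm]; exact hhw
  have hwv : H.ip w v = 0 := by rw [hH.comm]; exact hvw
  have hs0 : s ≠ 0 := by
    rintro rfl
    simp at hs
  have ht0 : t ≠ 0 := by
    rintro rfl
    simp at ht
  obtain ⟨B, x, y, hNB, hB0, hy, hx⟩ := exists_large hs ht hst (max N 1)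
  have hB1 : 1 < B := lt_of_le_of_lt (le_max_right N 1) hNB
  have hBN : N < B := lt_of_le_of_lt (le_max_left N 1) hNB
  have hdisc : H.disc (x • v + y • w) = 6 * (B ^ 4 - B ^ 2 + 1) := by
    rw [disc]
    simp only [ip_add_left, ip_add_right, ip_smul_left, ip_smul_right, hhv, hhw, hvv, hww, hvw,
      hwv]
    have h1 : (2 * t * x) ^ 2 = (B ^ 2 - 1) ^ 2 := by rw [hx]
    have h2 : (3 * s * y) ^ 2 = B ^ 2 := by rw [hy]
    linear_combination 6 * h1 + 6 * h2
  have hlarge : 6 * B < 6 * (B ^ 4 - B ^ 2 + 1) := by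
    have h1 : B ^ 4 - B ^ 2 + 1 - B = (B - 1) * (B ^ 2 * (B + 1) - 1) := by ring
    have h2 : 0 < (B - 1) * (B ^ 2 * (B + 1) - 1) := by
      apply mul_pos (by linarith)
      nlinarith
    linarith
  refine ⟨x • v + y • w, H.isHodge_add (H.isHodge_smul _ hv) (H.isHodge_smul _ hw), ?_, ?_, ?_⟩
  · intro z m a b hm hz
    have hzH : H.IsHodge z := by
      refine H.isHodge_of_smul hm ?_
      rw [hz]
      exact H.isHodge_add (H.isHodge_smul _ hH.h_hodge) (H.isHodge_smul _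
        (H.isHodge_add (H.isHodge_smul _ hv) (H.isHodge_smul _ hw)))
    obtain ⟨α, β, γ, rfl⟩ := hall z hzH
    have h2 := congrArg (H.ip v) hz
    have h3 := congrArg (H.ip w) hz
    simp only [ip_add_right, ip_smul_right, hhv, hhw, hvh, hwh, hvv, hww, hvw,
      hwv, mul_zero, add_zero, zero_add] at h2 h3
    have e2 : m * β = b * x := by
      have : 8 * t ^ 2 * (m * β) = 8 * t ^ 2 * (b * x) := by linear_combination h2
      exact mul_left_cancel₀ (by positivity) this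
    have e3 : m * γ = b * y := by
      have : 18 * s ^ 2 * (m * γ) = 18 * s ^ 2 * (b * y) := by linear_combination h3
      exact mul_left_cancel₀ (by positivity) this
    have hb : b = m * (3 * s * B * γ - 2 * t * β) := by
      have h5 : m * (3 * s * B * γ - 2 * t * β) = 3 * s * B * (m * γ) - 2 * t * (m * β) := by
        ring
      rw [h5, e2, e3]
      linear_combination (-(b * B)) * hy + b * hx
    refine ⟨α, 3 * s * B * γ - 2 * t * β, ?_⟩
    have e4 : β = (3 * s * B * γ - 2 * t * β) * x := by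
      apply mul_left_cancel₀ hm
      rw [e2]
      nth_rewrite 1 [hb]
      ring
    have e5 : γ = (3 * s * B * γ - 2 * t * β) * y := by
      apply mul_left_cancel₀ hm
      rw [e3]
      nth_rewrite 1 [hb]
      ring
    rw [smul_add, smul_smul, smul_smul, ← e4, ← e5, add_assoc]
  · rw [hdisc]
    exact admissible_six ⟨s * y, by rw [← hy]; ring⟩ (by linarith)
  · rw [hdisc]
    linarith

/-- **The examples in rank three.** -/
theorem three_examples (hH : H.IsCohomology) {s t : ℤ}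
    {v w : Fin 23 → ℤ} (hs : Odd s) (ht : ¬ 3 ∣ t) (hst : IsCoprime s t) (hv : H.IsHodge v)
    (hw : H.IsHodge w) (hhv : H.ip H.h v = 0) (hhw : H.ip H.h w = 0) (hvw : H.ip v w = 0)
    (hvv : H.ip v v = 8 * t ^ 2) (hww : H.ip w w = 18 * s ^ 2)
    (hall : ∀ x, H.IsHodge x → ∃ a b c : ℤ, x = a • H.h + b • v + c • w) :
    InfinitelyManyK3 H ∧ ¬ HasHilb H := by
  refine ⟨three_infinitely hH hs ht hst hv hw hhv hhw hvw hvv hww hall, fun h => ?_⟩
  have hvh : H.ip v H.h = 0 := by rw [hH.comm]; exact hhv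
  have hwh : H.ip w H.h = 0 := by rw [hH.comm]; exact hhw
  have hwv : H.ip w v = 0 := by rw [hH.comm]; exact hvw
  obtain ⟨y, hy, hyy⟩ := hilbClass_of_hasHilb hH h
  obtain ⟨c, a, b, rfl⟩ := hall y hy
  simp only [ip_add_left, ip_add_right, ip_smul_left, ip_smul_right, hvh, hwh, hvv, hww, hvw,
    hwv, hhv, hhw, hH.h_self] at hyy
  exact no_solution (t * a) (s * b) c (by linarith)

end Pool.Agent.R907.Cub
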